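import Mathlib

/-!
# Primes plus numbers with prime squarefree count: definitions

`GG g d`, `FF g d` are the products of `g p`, `g p - 1` over the primes dividing `d`; for
`g = gh h` the number `d / GG (gh h) d` (`d` squarefree) is the number of solutions of
`n (n + h) = 0` modulo `d`.
-/

set_option autoImplicit false

namespace Pool.Agent.MP2711

open Finset

/-- `Q(x)`: the number of squarefree integers in `{1, ..., x}`. -/
def Qsf (x : ℕ) : ℕ := ((Icc 1 x).filter Squarefree).card

/-- local factor: `p` if `p ∣ h`, `p / 2` otherwise -/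
noncomputable def gh (h p : ℕ) : ℝ := if p ∣ h then (p : ℝ) else (p : ℝ) / 2

/-- product of `g p` over `p ∣ d` -/
noncomputable def GG (g : ℕ → ℝ) (d : ℕ) : ℝ := ∏ p ∈ d.primeFactors, g p

/-- product of `g p - 1` over `p ∣ d` -/
noncomputable def FF (g : ℕ → ℝ) (d : ℕ) : ℝ := ∏ p ∈ d.primeFactors, (g p - 1)

/-- `S(h) = ∏_{p ∣ h} (1 + 1/p)` -/
noncomputable def SS (h : ℕ) : ℝ := ∏ p ∈ h.primeFactors, (1 + 1 / (p : ℝ))

end Pool.Agent.MP2711
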