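import Mathlib
import Pool.Agent.Lib_MP_2711ad_nt.Defs
import Pool.Agent.Lib_MP_f55cd4.MertC

/-!
# P5: average of `S(h)` over dense sets
-/

set_option autoImplicit false

namespace Pool.Agent.MP2711

open Finset Filter

/-- part of `S(h)` over the primes `> k` -/
private noncomputable def gg (k h : ℕ) : ℝ :=
  ∏ p ∈ h.primeFactors.filter (fun p => k < p), (1 + 1 / (p : ℝ))

/-- the product over all primes up to `k` -/
private noncomputable def PP (k : ℕ) : ℝ :=
  ∏ p ∈ (Icc 1 k).filter Nat.Prime, (1 + 1 / (p : ℝ))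

private lemma gg_pos (k h : ℕ) : 0 < gg k h := by
  unfold gg
  exact prod_pos fun p _ => by positivity

private lemma SS_le (k h : ℕ) : SS h ≤ PP k * gg k h := by
  have h1 : SS h = (∏ p ∈ h.primeFactors.filter (fun p => ¬ k < p), (1 + 1 / (p : ℝ))) *
      gg k h := by
    unfold SS gg
    rw [mul_comm, Finset.prod_filter_mul_prod_filter_not]
  rw [h1]
  refine mul_le_mul_of_nonneg_right ?_ (gg_pos k h).le
  unfold PP
  refine Finset.prod_le_prod_of_subset_of_one_le ?_ (fun p _ => by positivity) (fun p _ _ => ?_)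
  · intro p hp
    simp only [mem_filter, mem_Icc] at hp ⊢
    have hp1 := Nat.prime_of_mem_primeFactors hp.1
    exact ⟨⟨hp1.one_lt.le, by omega⟩, hp1⟩
  · have : (0 : ℝ) ≤ 1 / (p : ℝ) := by positivity
    linarith

private lemma PP_le : ∃ C : ℝ, 0 < C ∧ ∀ k : ℕ, 2 ≤ k → PP k ≤ C * Real.log k := by
  obtain ⟨C, hC⟩ := MPf55cd4.ms_sum
  refine ⟨Real.exp C, Real.exp_pos _, fun k hk => ?_⟩
  have hk2 : (2 : ℝ) ≤ k := by exact_mod_cast hk
  have h1 := hC k hk2
  rw [Nat.floor_natCast] at h1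
  have h2 := (abs_le.1 h1).2
  have hlog : 0 < Real.log (k : ℝ) := Real.log_pos (by linarith)
  calc PP k ≤ ∏ p ∈ (Icc 1 k).filter Nat.Prime, Real.exp (1 / (p : ℝ)) := by
        unfold PP
        refine prod_le_prod (fun p _ => by positivity) (fun p _ => ?_)
        have := Real.add_one_le_exp (1 / (p : ℝ))
        linarith
    _ = Real.exp (∑ p ∈ (Icc 1 k).filter Nat.Prime, 1 / (p : ℝ)) := by rw [Real.exp_sum]
    _ ≤ Real.exp (C + Real.log (Real.log k)) := by
        apply Real.exp_le_exp.2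
        linarith
    _ = Real.exp C * Real.log k := by rw [Real.exp_add, Real.exp_log hlog]

private lemma x_le (x : ℝ) (hx : 0 < x) (m : ℕ) :
    x ≤ Real.exp 1 + x ^ (m + 1) / Real.exp m := by
  have he : Real.exp m = Real.exp 1 ^ m := by
    rw [← Real.exp_nat_mul, mul_one]
  rcases le_total x (Real.exp 1) with h | h
  · have : 0 ≤ x ^ (m + 1) / Real.exp m := by positivity
    linarith
  · have h1 : 1 ≤ (x / Real.exp 1) ^ m := by
      apply one_le_pow₀
      rw [le_div_iff₀ (Real.exp_pos 1)]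
      linarith
    have h2 : x ^ (m + 1) / Real.exp m = x * (x / Real.exp 1) ^ m := by
      rw [he, div_pow, pow_succ]
      ring
    rw [h2]
    have h3 : x * 1 ≤ x * (x / Real.exp 1) ^ m := mul_le_mul_of_nonneg_left h1 hx.le
    have := Real.exp_pos 1
    linarith

/-- primes in `(k, N]` -/
private def QQ (k N : ℕ) : Finset ℕ := (Ioc k N).filter Nat.Prime

private lemma gg_pow (k h : ℕ) : gg k h ^ k ≤
    ∑ D ∈ (h.primeFactors.filter (fun p => k < p)).powerset, ∏ p ∈ D, (2 * (k : ℝ) / (p : ℝ)) := by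
  unfold gg
  rw [← Finset.prod_pow, ← Finset.prod_one_add]
  refine prod_le_prod (fun p _ => by positivity) (fun p hp => ?_)
  have hp2 := (mem_filter.1 hp).2
  have hp0 : (0 : ℝ) < p := by
    have : 0 < p := by omega
    exact_mod_cast this
  have hkp : (k : ℝ) / p ≤ 1 := by
    rw [div_le_one hp0]
    exact_mod_cast hp2.le
  have hk0 : (0 : ℝ) ≤ (k : ℝ) / p := by positivity
  calc (1 + 1 / (p : ℝ)) ^ k ≤ (Real.exp (1 / (p : ℝ))) ^ k := by
        apply pow_le_pow_left₀ (by positivity)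
        have := Real.add_one_le_exp (1 / (p : ℝ))
        linarith
    _ = Real.exp ((k : ℝ) / p) := by
        rw [← Real.exp_nat_mul]
        congr 1
        ring
    _ ≤ 1 + 2 * (k : ℝ) / p := by
        have h1 := Real.abs_exp_sub_one_le (x := (k : ℝ) / p) (by rw [abs_of_nonneg hk0]; exact hkp)
        have h2 := (abs_le.1 h1).2
        rw [abs_of_nonneg hk0] at h2
        have h3 : 2 * (k : ℝ) / p = 2 * ((k : ℝ) / p) := by ring
        linarith

private lemma card_D (k N : ℕ) (D : Finset ℕ) (hD : D ⊆ QQ k N) :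
    (((Ioc 0 N).filter (fun h => D ⊆ h.primeFactors.filter (fun p => k < p))).card : ℝ) ≤
      N * ∏ p ∈ D, (1 / (p : ℝ)) := by
  have h1 : (Ioc 0 N).filter (fun h => D ⊆ h.primeFactors.filter (fun p => k < p)) ⊆
      (Ioc 0 N).filter (fun h => (∏ p ∈ D, p) ∣ h) := by
    intro h hh
    simp only [mem_filter] at hh ⊢
    refine ⟨hh.1, ?_⟩
    apply Finset.prod_primes_dvd
    · intro p hp
      exact ((mem_filter.1 (hD hp)).2).prime
    · intro p hp
      exact Nat.dvd_of_mem_primeFactors (mem_filter.1 (hh.2 hp)).1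
  have h2 := card_le_card h1
  rw [Nat.Ioc_filter_dvd_card_eq_div] at h2
  have h3 : (((Ioc 0 N).filter (fun h => D ⊆ h.primeFactors.filter (fun p => k < p))).card : ℝ) ≤
      ((N / (∏ p ∈ D, p) : ℕ) : ℝ) := by exact_mod_cast h2
  refine h3.trans ((Nat.cast_div_le).trans ?_)
  rw [Nat.cast_prod, div_eq_mul_inv, ← Finset.prod_inv_distrib]
  simp only [one_div, le_refl]

private lemma moment (k N : ℕ) (hk : 1 ≤ k) :
    ∑ h ∈ Ioc 0 N, gg k h ^ k ≤ N * Real.exp 2 := by
  classical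
  have h1 : ∑ h ∈ Ioc 0 N, gg k h ^ k ≤ ∑ D ∈ (QQ k N).powerset,
      ∑ h ∈ Ioc 0 N, if D ⊆ h.primeFactors.filter (fun p => k < p) then
        ∏ p ∈ D, (2 * (k : ℝ) / (p : ℝ)) else 0 := by
    rw [Finset.sum_comm]
    refine sum_le_sum fun h hh => (gg_pow k h).trans (le_of_eq ?_)
    rw [← Finset.sum_filter]
    apply Finset.sum_congr _ (fun _ _ => rfl)
    ext D
    simp only [mem_powerset, mem_filter]
    constructor
    · intro hD
      refine ⟨fun p hp => ?_, hD⟩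
      have hp1 := mem_filter.1 (hD hp)
      have hp2 := Nat.prime_of_mem_primeFactors hp1.1
      have hp3 := Nat.le_of_mem_primeFactors hp1.1
      have hh' := mem_Ioc.1 hh
      exact mem_filter.2 ⟨mem_Ioc.2 ⟨hp1.2, by omega⟩, hp2⟩
    · exact fun h => h.2
  have h2 : ∀ D ∈ (QQ k N).powerset,
      (∑ h ∈ Ioc 0 N, if D ⊆ h.primeFactors.filter (fun p => k < p) then
        ∏ p ∈ D, (2 * (k : ℝ) / (p : ℝ)) else 0) ≤ N * ∏ p ∈ D, (2 * (k : ℝ) / (p : ℝ) ^ 2) := by
    intro D hD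
    rw [← Finset.sum_filter, Finset.sum_const, nsmul_eq_mul]
    have h3 := card_D k N D (mem_powerset.1 hD)
    have h4 : (0 : ℝ) ≤ ∏ p ∈ D, (2 * (k : ℝ) / (p : ℝ)) := prod_nonneg fun p _ => by positivity
    calc _ ≤ (N * ∏ p ∈ D, (1 / (p : ℝ))) * ∏ p ∈ D, (2 * (k : ℝ) / (p : ℝ)) :=
          mul_le_mul_of_nonneg_right h3 h4
      _ = N * ∏ p ∈ D, (2 * (k : ℝ) / (p : ℝ) ^ 2) := by
          rw [mul_assoc, ← Finset.prod_mul_distrib]
          congr 1
          apply prod_congr rfl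
          intro p _
          rw [pow_two, ← mul_div_mul_comm]
          ring
  have h5 : ∑ D ∈ (QQ k N).powerset, (N : ℝ) * ∏ p ∈ D, (2 * (k : ℝ) / (p : ℝ) ^ 2) ≤
      N * Real.exp 2 := by
    rw [← Finset.mul_sum, ← Finset.prod_one_add]
    refine mul_le_mul_of_nonneg_left ?_ (Nat.cast_nonneg N)
    calc ∏ p ∈ QQ k N, (1 + 2 * (k : ℝ) / (p : ℝ) ^ 2) ≤
          ∏ p ∈ QQ k N, Real.exp (2 * (k : ℝ) / (p : ℝ) ^ 2) := by
          refine prod_le_prod (fun p _ => by positivity) (fun p _ => ?_)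
          have := Real.add_one_le_exp (2 * (k : ℝ) / (p : ℝ) ^ 2)
          linarith
      _ = Real.exp (∑ p ∈ QQ k N, 2 * (k : ℝ) / (p : ℝ) ^ 2) := by rw [Real.exp_sum]
      _ ≤ Real.exp 2 := by
          apply Real.exp_le_exp.2
          have hk0 : (0 : ℝ) < k := by exact_mod_cast hk
          have h6 : ∑ p ∈ QQ k N, 2 * (k : ℝ) / (p : ℝ) ^ 2 ≤
              ∑ p ∈ (Ioc k N : Finset ℕ), 2 * (k : ℝ) / (p : ℝ) ^ 2 :=
            sum_le_sum_of_subset_of_nonneg (filter_subset _ _) fun _ _ _ => by positivity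
          have h7 : ∑ p ∈ (Ioc k N : Finset ℕ), (2 * (k : ℝ) / (p : ℝ) ^ 2) ≤ 2 * (k : ℝ) * (1 / (k : ℝ)) := by
            have h8 : ∑ p ∈ (Ioc k N : Finset ℕ), ((p : ℝ) ^ 2)⁻¹ ≤ (k : ℝ)⁻¹ := by
              rcases le_or_gt k N with hkN | hkN
              · have := sum_Ioc_inv_sq_le_sub (α := ℝ) (by omega : k ≠ 0) hkN
                have h9 : (0 : ℝ) ≤ (N : ℝ)⁻¹ := by positivity
                linarith
              · rw [Ioc_eq_empty (by omega)]
                simp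
            have h10 : ∑ p ∈ (Ioc k N : Finset ℕ), (2 * (k : ℝ) / (p : ℝ) ^ 2) =
                2 * (k : ℝ) * ∑ p ∈ (Ioc k N : Finset ℕ), ((p : ℝ) ^ 2)⁻¹ := by
              rw [Finset.mul_sum]
              exact sum_congr rfl fun _ _ => by rw [div_eq_mul_inv]
            rw [h10, one_div]
            exact mul_le_mul_of_nonneg_left h8 (by positivity)
          have h11 : 2 * (k : ℝ) * (1 / (k : ℝ)) = 2 := by field_simp
          linarith
  exact h1.trans ((sum_le_sum h2).trans h5)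

/-- PROOF. Let `k = ⌈log log N⌉₊ + 1` (so `e^(k-1) ≥ log N`). For `1 ≤ h ≤ N`:
`SS h ≤ (∏_{p ≤ k} (1 + 1/p)) * g h`, `g h = ∏_{p ∣ h, p > k} (1 + 1/p)`; the first product is
`≤ exp (∑_{p ≤ k} 1/p) ≤ C log k` (`ms_sum` of `Lib_MP_f55cd4/MertC.lean`), `log k ≤ 2 log log log N`
for large `N`. For `x > 0`: `x ≤ e + x^k / e^(k-1)`, so
`∑_{h ∈ A} g h ≤ e |A| + (1 / log N) ∑_{h ≤ N} (g h)^k`.
Moment: `(g h)^k = ∏_{p ∣ h, k < p ≤ N} (1 + a_p)`, `a_p = (1+1/p)^k - 1 ≤ 2k/p`
(`(1+1/p)^k ≤ exp (k/p) ≤ 1 + 2k/p` as `k/p ≤ 1`); expand (`Finset.prod_one_add`) over subsets `D` of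
the primes in `(k, N]`: `∑_{h ≤ N} ∏_{p ∣ h} (1 + a_p) = ∑_D (∏_{p ∈ D} a_p) #{h ≤ N : ∏ D ∣ h}
≤ N ∑_D ∏_{p ∈ D} a_p/p = N ∏ (1 + a_p/p) ≤ N exp (∑_{n > k} 2k/n^2) ≤ N e^2`. -/
theorem avg : ∃ C : ℝ, 0 < C ∧ ∀ᶠ N : ℕ in atTop, ∀ A : Finset ℕ, A ⊆ Icc 1 N →
    ∑ h ∈ A, SS h ≤ C * Real.log (Real.log (Real.log N)) * (A.card + N / Real.log N) := by
  obtain ⟨C, hC, hPP⟩ := PP_le
  refine ⟨2 * C * Real.exp 2, by positivity, ?_⟩
  have t1 : Tendsto (fun N : ℕ => Real.log (Real.log (N : ℝ))) atTop atTop :=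
    Real.tendsto_log_atTop.comp (Real.tendsto_log_atTop.comp tendsto_natCast_atTop_atTop)
  have t0 : Tendsto (fun N : ℕ => Real.log (N : ℝ)) atTop atTop :=
    Real.tendsto_log_atTop.comp tendsto_natCast_atTop_atTop
  filter_upwards [t1.eventually_ge_atTop 2, t0.eventually_gt_atTop 1] with N hN hN1 A hA
  set L := Real.log (N : ℝ) with hL
  set LL := Real.log L with hLL
  set m := ⌈LL⌉₊ with hm
  have hm1 : LL ≤ m := Nat.le_ceil _
  have hm2 : (m : ℝ) < LL + 1 := Nat.ceil_lt_add_one (by linarith)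
  have hmpos : 1 ≤ m := by
    have : (0 : ℝ) < m := by linarith
    have : 0 < m := by exact_mod_cast this
    omega
  have hL0 : 0 < L := by linarith
  have hexp : L ≤ Real.exp m := by
    calc L = Real.exp LL := (Real.exp_log hL0).symm
      _ ≤ Real.exp m := Real.exp_le_exp.2 hm1
  have hlogk : Real.log ((m + 1 : ℕ) : ℝ) ≤ 2 * Real.log LL := by
    have h1 : ((m + 1 : ℕ) : ℝ) ≤ LL ^ 2 := by
      push_cast
      nlinarith
    have h2 : (0 : ℝ) < ((m + 1 : ℕ) : ℝ) := by positivity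
    calc Real.log ((m + 1 : ℕ) : ℝ) ≤ Real.log (LL ^ 2) := Real.log_le_log h2 h1
      _ = 2 * Real.log LL := by rw [Real.log_pow]; norm_num
  have hP := hPP (m + 1) (by omega)
  have hLLL : 0 ≤ Real.log LL := Real.log_nonneg (by linarith)
  have hP2 : PP (m + 1) ≤ 2 * C * Real.log LL := by
    calc PP (m + 1) ≤ C * Real.log ((m + 1 : ℕ) : ℝ) := hP
      _ ≤ C * (2 * Real.log LL) := mul_le_mul_of_nonneg_left hlogk hC.le
      _ = 2 * C * Real.log LL := by ring
  have hS : ∑ h ∈ A, gg (m + 1) h ≤ Real.exp 2 * (A.card + N / L) := by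
    calc ∑ h ∈ A, gg (m + 1) h ≤
          ∑ h ∈ A, (Real.exp 1 + gg (m + 1) h ^ (m + 1) / Real.exp m) :=
          sum_le_sum fun h _ => x_le _ (gg_pos _ _) m
      _ = A.card * Real.exp 1 + (∑ h ∈ A, gg (m + 1) h ^ (m + 1)) / Real.exp m := by
          rw [sum_add_distrib, sum_const, nsmul_eq_mul, Finset.sum_div]
      _ ≤ A.card * Real.exp 2 + (N * Real.exp 2) / L := by
          have h1 : ∑ h ∈ A, gg (m + 1) h ^ (m + 1) ≤ N * Real.exp 2 := by
            refine le_trans ?_ (moment (m + 1) N (by omega))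
            apply sum_le_sum_of_subset_of_nonneg
            · intro h hh
              have := mem_Icc.1 (hA hh)
              exact mem_Ioc.2 ⟨by omega, this.2⟩
            · intro h _ _
              exact pow_nonneg (gg_pos _ _).le _
          have h2 : (∑ h ∈ A, gg (m + 1) h ^ (m + 1)) / Real.exp m ≤ (N * Real.exp 2) / L :=
            div_le_div₀ (by positivity) h1 hL0 hexp
          have h3 : (A.card : ℝ) * Real.exp 1 ≤ A.card * Real.exp 2 :=
            mul_le_mul_of_nonneg_left (Real.exp_le_exp.2 (by norm_num)) (Nat.cast_nonneg _)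
          linarith
      _ = Real.exp 2 * (A.card + N / L) := by ring
  have hR : 0 ≤ ∑ h ∈ A, gg (m + 1) h := sum_nonneg fun h _ => (gg_pos _ _).le
  calc ∑ h ∈ A, SS h ≤ ∑ h ∈ A, PP (m + 1) * gg (m + 1) h :=
        sum_le_sum fun h _ => SS_le _ _
    _ = PP (m + 1) * ∑ h ∈ A, gg (m + 1) h := by rw [Finset.mul_sum]
    _ ≤ (2 * C * Real.log LL) * ∑ h ∈ A, gg (m + 1) h := mul_le_mul_of_nonneg_right hP2 hR
    _ ≤ (2 * C * Real.log LL) * (Real.exp 2 * (A.card + N / L)) :=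
        mul_le_mul_of_nonneg_left hS (by positivity)
    _ = 2 * C * Real.exp 2 * Real.log LL * (A.card + N / L) := by ring

end Pool.Agent.MP2711
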