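import Mathlib
import Pool.Agent.Lib_MP_2711ad_nt.Defs

/-!
# P6: Chebyshev bounds and the set of `m` with `Q(m)` prime
-/

set_option autoImplicit false

namespace Pool.Agent.MP2711

open Finset Filter

private lemma card_eq_pi (N : ℕ) : ((Icc 1 N).filter Nat.Prime).card = Nat.primeCounting N := by
  rw [Nat.primeCounting, Nat.primeCounting', Nat.count_eq_card_filter_range]
  congr 1
  ext p
  simp only [mem_filter, mem_Icc, mem_range]
  constructor
  · rintro ⟨⟨h1, h2⟩, h3⟩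
    exact ⟨by omega, h3⟩
  · rintro ⟨h1, h3⟩
    exact ⟨⟨h3.one_le, by omega⟩, h3⟩

/-- PROOF. `Chebyshev.pi_ge`, `Chebyshev.pi_le_log4_mul_div` (Mathlib/NumberTheory/Chebyshev.lean) or
`eventually_primeCounting_le`. -/
theorem cheb : ∃ c C : ℝ, 0 < c ∧ 0 < C ∧ ∀ᶠ N : ℕ in atTop,
    c * N / Real.log N ≤ (((Icc 1 N).filter Nat.Prime).card : ℝ) ∧
    (((Icc 1 N).filter Nat.Prime).card : ℝ) ≤ C * N / Real.log N := by
  have hl2 : 0 < Real.log 2 := Real.log_pos (by norm_num)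
  have hl4 : 0 < Real.log 4 := Real.log_pos (by norm_num)
  refine ⟨Real.log 2 / 4, Real.log 4 + 1, by positivity, by positivity, ?_⟩
  have hup := (Chebyshev.eventually_primeCounting_le (ε := 1) one_pos)
  have hup2 := (tendsto_natCast_atTop_atTop (R := ℝ)).eventually hup
  have hlo := (Real.isLittleO_log_id_atTop).bound (c := Real.log 2 / 4) (by positivity)
  have hlo2 := (tendsto_natCast_atTop_atTop (R := ℝ)).eventually hlo
  filter_upwards [hup2, hlo2, eventually_ge_atTop 2] with N h1 h2 hN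
  have hN' : (2 : ℝ) ≤ (N : ℝ) := by exact_mod_cast hN
  rw [card_eq_pi]
  rw [Nat.floor_natCast] at h1
  refine ⟨?_, h1⟩
  have hlog : 0 < Real.log (N : ℝ) := Real.log_pos (by linarith)
  refine le_trans ?_ (Chebyshev.pi_ge N)
  rw [div_le_div_iff_of_pos_right hlog]
  simp only [id, Real.norm_eq_abs] at h2
  rw [abs_of_pos hlog, abs_of_pos (by linarith : (0 : ℝ) < (N : ℝ))] at h2
  have h3 : Real.log ((N : ℝ) + 1) ≤ Real.log 2 + Real.log N := by
    rw [← Real.log_mul (by norm_num) (by linarith)]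
    exact Real.log_le_log (by linarith) (by linarith)
  nlinarith

private lemma sum_sq_le (N : ℕ) (hN : 2 ≤ N) :
    ∑ d ∈ Icc 2 N, (1 : ℝ) / ((d : ℝ) * d) ≤ 3 / 4 - 1 / (N : ℝ) := by
  induction N, hN using Nat.le_induction with
  | base => norm_num
  | succ n hn ih =>
    rw [Finset.sum_Icc_succ_top (by omega)]
    have hn' : (2 : ℝ) ≤ (n : ℝ) := by exact_mod_cast hn
    have h1 : (1 : ℝ) / (((n + 1 : ℕ) : ℝ) * ((n + 1 : ℕ) : ℝ)) ≤
        1 / (n : ℝ) - 1 / ((n + 1 : ℕ) : ℝ) := by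
      push_cast
      rw [div_sub_div _ _ (by linarith) (by linarith)]
      rw [div_le_div_iff₀ (by positivity) (by positivity)]
      nlinarith
    linarith

private lemma Qsf_succ_le (m : ℕ) : Qsf (m + 1) ≤ Qsf m + 1 := by
  unfold Qsf
  have h : (Icc 1 (m + 1)).filter Squarefree ⊆ insert (m + 1) ((Icc 1 m).filter Squarefree) := by
    intro x hx
    simp only [mem_filter, mem_Icc, mem_insert] at hx ⊢
    by_cases h : x = m + 1
    · exact Or.inl h
    · exact Or.inr ⟨⟨hx.1.1, by omega⟩, hx.2⟩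
  exact (card_le_card h).trans (card_insert_le _ _)

private lemma Qsf_ivt (N q : ℕ) (h : q ≤ Qsf N) : ∃ m ≤ N, Qsf m = q := by
  induction N with
  | zero =>
    refine ⟨0, le_rfl, ?_⟩
    have h0 : Qsf 0 = 0 := by simp [Qsf]
    omega
  | succ n ih =>
    by_cases hq : q ≤ Qsf n
    · obtain ⟨m, hm, hmq⟩ := ih hq
      exact ⟨m, by omega, hmq⟩
    · exact ⟨n + 1, le_rfl, by have := Qsf_succ_le n; omega⟩

private lemma Qsf_le (N : ℕ) : Qsf N ≤ N := by
  unfold Qsf
  refine (card_filter_le _ _).trans ?_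
  simp

private lemma Qsf_ge (N : ℕ) (hN : 2 ≤ N) : (N : ℝ) / 4 ≤ (Qsf N : ℝ) := by
  have h1 : ((Icc 1 N).filter Squarefree).card + ((Icc 1 N).filter (fun n => ¬ Squarefree n)).card
      = N := by
    rw [card_filter_add_card_filter_not]
    simp
  have h2 : (Icc 1 N).filter (fun n => ¬ Squarefree n) ⊆
      (Icc 2 N).biUnion (fun d => (Ioc 0 N).filter (fun n => d * d ∣ n)) := by
    intro n hn
    simp only [mem_filter, mem_Icc, mem_biUnion, mem_Ioc] at hn ⊢
    obtain ⟨⟨ha, hb⟩, hc⟩ := hn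
    rw [Nat.squarefree_iff_prime_squarefree] at hc
    push Not at hc
    obtain ⟨p, hp, hpn⟩ := hc
    have hle := Nat.le_of_dvd (by omega) hpn
    exact ⟨p, ⟨hp.two_le, by nlinarith [hp.two_le]⟩, ⟨by omega, hb⟩, hpn⟩
  have h3 : (((Icc 1 N).filter (fun n => ¬ Squarefree n)).card : ℝ) ≤ 3 / 4 * (N : ℝ) := by
    have h4 : ((Icc 1 N).filter (fun n => ¬ Squarefree n)).card ≤
        ∑ d ∈ Icc 2 N, N / (d * d) := by
      refine (card_le_card h2).trans (card_biUnion_le.trans ?_)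
      refine sum_le_sum fun d _ => ?_
      rw [Nat.Ioc_filter_dvd_card_eq_div]
    have h5 : (((Icc 1 N).filter (fun n => ¬ Squarefree n)).card : ℝ) ≤
        ∑ d ∈ Icc 2 N, (N : ℝ) * (1 / ((d : ℝ) * d)) := by
      refine (Nat.cast_le.mpr h4).trans ?_
      push_cast
      refine sum_le_sum fun d _ => ?_
      refine (Nat.cast_div_le).trans ?_
      push_cast
      rw [mul_one_div]
    rw [← mul_sum] at h5
    have h6 := sum_sq_le N hN
    have h7 : (0 : ℝ) ≤ 1 / (N : ℝ) := by positivity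
    have h8 : (0 : ℝ) ≤ (N : ℝ) := by positivity
    nlinarith
  have h9 : ((Qsf N : ℕ) : ℝ) + (((Icc 1 N).filter (fun n => ¬ Squarefree n)).card : ℝ)
      = (N : ℝ) := by
    rw [← Nat.cast_add]
    exact_mod_cast h1
  linarith

private lemma Qsf_tendsto : Tendsto Qsf atTop atTop := by
  refine tendsto_atTop_mono' (f₁ := fun N => N / 4) atTop ?_ (Nat.tendsto_div_const_atTop (by norm_num))
  filter_upwards [eventually_ge_atTop 2] with N hN
  have h := Qsf_ge N hN
  rw [div_le_iff₀ (by norm_num)] at h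
  have h' : N ≤ Qsf N * 4 := by exact_mod_cast h
  omega

/-- PROOF. `Qsf 0 = 0`, `Qsf (m+1) ≤ Qsf m + 1`, so `Qsf` takes every value up to `Qsf N` on
`Icc 1 N`; hence the set has at least `π (Qsf N)` elements. `N - Qsf N ≤ ∑_{d ≥ 2} N / d^2`
`≤ (1/4 + 1/2) N` (`∑_{d ≥ 3} 1/d^2 ≤ 1/2`), so `Qsf N ≥ N / 4`. Then `cheb`. -/
theorem bset : ∃ c : ℝ, 0 < c ∧ ∀ᶠ N : ℕ in atTop,
    c * N / Real.log N ≤ (((Icc 1 N).filter (fun m => (Qsf m).Prime)).card : ℝ) := by
  obtain ⟨c, C, hc, -, hev⟩ := cheb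
  refine ⟨c / 4, by positivity, ?_⟩
  filter_upwards [Qsf_tendsto.eventually hev, eventually_ge_atTop 8,
    Qsf_tendsto.eventually (eventually_ge_atTop 2)] with N h1 hN hQ
  have hN' : (8 : ℝ) ≤ (N : ℝ) := by exact_mod_cast hN
  have hQ' : (2 : ℝ) ≤ (Qsf N : ℝ) := by exact_mod_cast hQ
  have h2 := Qsf_ge N (by omega)
  have h3 : ((Icc 1 (Qsf N)).filter Nat.Prime).card ≤
      ((Icc 1 N).filter (fun m => (Qsf m).Prime)).card := by
    have hsub : (Icc 1 (Qsf N)).filter Nat.Prime ⊆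
        ((Icc 1 N).filter (fun m => (Qsf m).Prime)).image Qsf := by
      intro q hq
      simp only [mem_filter, mem_Icc, mem_image] at hq ⊢
      obtain ⟨m, hm, hmq⟩ := Qsf_ivt N q hq.1.2
      refine ⟨m, ⟨⟨?_, hm⟩, by rw [hmq]; exact hq.2⟩, hmq⟩
      rcases Nat.eq_zero_or_pos m with h0 | h0
      · exfalso
        subst h0
        have h00 : Qsf 0 = 0 := by simp [Qsf]
        have := hq.2.one_lt
        omega
      · exact h0
    exact (card_le_card hsub).trans card_image_le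
  refine le_trans ?_ (Nat.cast_le.mpr h3)
  refine le_trans ?_ h1.1
  have hlQ : 0 < Real.log (Qsf N : ℝ) := Real.log_pos (by linarith)
  have hlN : 0 < Real.log (N : ℝ) := Real.log_pos (by linarith)
  have hle : Real.log (Qsf N : ℝ) ≤ Real.log (N : ℝ) :=
    Real.log_le_log (by linarith) (by exact_mod_cast Qsf_le N)
  rw [div_le_div_iff₀ hlN hlQ]
  have h5 : c / 4 * (N : ℝ) ≤ c * (Qsf N : ℝ) := by nlinarith
  have h6 : 0 ≤ c * (Qsf N : ℝ) := by positivity
  calc c / 4 * (N : ℝ) * Real.log (Qsf N : ℝ) ≤ c * (Qsf N : ℝ) * Real.log (Qsf N : ℝ) :=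
        mul_le_mul_of_nonneg_right h5 hlQ.le
    _ ≤ c * (Qsf N : ℝ) * Real.log (N : ℝ) := mul_le_mul_of_nonneg_left hle h6

end Pool.Agent.MP2711
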