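import Mathlib
import Pool.Agent.Lib_MP_2711ad_nt.Defs

/-!
# P2: `n ≤ N` with `D ∣ n (n + h)`
-/

set_option autoImplicit false

namespace Pool.Agent.MP2711

open Finset

/-- numbers up to `N` in a residue class -/
private theorem count_class' {r : ℕ} (hr : 0 < r) (N v : ℕ) :
    |(((Ioc 0 N).filter (fun x => x ≡ v [MOD r])).card : ℝ) - N / r| ≤ 1 := by
  have h := Nat.Ioc_filter_modEq_card 0 N hr v
  have hr' : (0 : ℚ) < r := by exact_mod_cast hr
  set u : ℚ := ((N : ℚ) - v) / r with hu
  set w : ℚ := (((0 : ℕ) : ℚ) - v) / r with hw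
  have huw : u - w = (N : ℚ) / r := by
    rw [hu, hw]
    field_simp
    push_cast
    ring
  have h1 : (((Ioc 0 N).filter (fun x => x ≡ v [MOD r])).card : ℚ) ≤ (N : ℚ) / r + 1 ∧
      (N : ℚ) / r - 1 ≤ (((Ioc 0 N).filter (fun x => x ≡ v [MOD r])).card : ℚ) := by
    have h2 : ((((Ioc 0 N).filter (fun x => x ≡ v [MOD r])).card : ℤ) : ℚ) =
        ((max (⌊u⌋ - ⌊w⌋) 0 : ℤ) : ℚ) := by rw [h]
    have h3 := Int.floor_le u
    have h4 := Int.lt_floor_add_one u
    have h5 := Int.floor_le w
    have h6 := Int.lt_floor_add_one w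
    have h7 : (0 : ℚ) ≤ (N : ℚ) / r := by positivity
    rw [Int.cast_natCast] at h2
    rw [h2]
    rw [← huw] at h7 ⊢
    push_cast
    constructor
    · apply max_le
      · linarith
      · linarith
    · exact le_trans (by linarith) (le_max_left _ _)
  obtain ⟨ha, hb⟩ := h1
  have ha' : (((Ioc 0 N).filter (fun x => x ≡ v [MOD r])).card : ℝ) ≤ (N : ℝ) / r + 1 := by
    have := (Rat.cast_le (K := ℝ)).mpr ha
    push_cast at this
    exact this
  have hb' : (N : ℝ) / r - 1 ≤ (((Ioc 0 N).filter (fun x => x ≡ v [MOD r])).card : ℝ) := by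
    have := (Rat.cast_le (K := ℝ)).mpr hb
    push_cast at this
    exact this
  rw [abs_le]
  constructor <;> linarith

/-- the number of roots of `x (x + h)` modulo `D` -/
private noncomputable def ww (h D : ℕ) : ℕ := Nat.card {x : ZMod D // x * (x + (h : ZMod D)) = 0}

private theorem ww_one (h : ℕ) : ww h 1 = 1 := by
  unfold ww
  rw [Nat.card_eq_one_iff_unique]
  refine ⟨⟨fun a b => Subtype.ext (Subsingleton.elim _ _)⟩, ⟨⟨0, by simp⟩⟩⟩

private theorem ww_prime (h p : ℕ) (hp : p.Prime) : ww h p = if p ∣ h then 1 else 2 := by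
  haveI := Fact.mk hp
  have hset : ww h p = ({0, -(h : ZMod p)} : Set (ZMod p)).ncard := by
    unfold ww
    rw [← Nat.card_coe_set_eq]
    apply Nat.card_congr
    refine Equiv.subtypeEquivRight fun x => ?_
    rw [mul_eq_zero, Set.mem_insert_iff, Set.mem_singleton_iff, add_eq_zero_iff_eq_neg]
  rw [hset]
  split_ifs with hd
  · have h0 : (h : ZMod p) = 0 := (ZMod.natCast_eq_zero_iff h p).mpr hd
    rw [h0, neg_zero, Set.pair_eq_singleton, Set.ncard_singleton]
  · refine Set.ncard_pair fun h0 => hd ?_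
    rw [← ZMod.natCast_eq_zero_iff]
    rw [← neg_eq_zero]
    exact h0.symm

private theorem ww_mul (h a b : ℕ) (hab : a.Coprime b) : ww h (a * b) = ww h a * ww h b := by
  unfold ww
  rw [← Nat.card_prod]
  apply Nat.card_congr
  refine (Equiv.subtypeEquiv (ZMod.chineseRemainder hab).toEquiv
    (q := fun y : ZMod a × ZMod b => y.1 * (y.1 + (h : ZMod a)) = 0 ∧ y.2 * (y.2 + (h : ZMod b)) = 0)
    fun x => ?_).trans ?_
  · rw [← (ZMod.chineseRemainder hab).map_eq_zero_iff, map_mul, map_add, map_natCast,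
      Prod.ext_iff]
    rfl
  · exact Equiv.subtypeProdEquivProd (p := fun y : ZMod a => y * (y + (h : ZMod a)) = 0)
      (q := fun y : ZMod b => y * (y + (h : ZMod b)) = 0)

private theorem ww_eq (h D : ℕ) (hD : Squarefree D) :
    (ww h D : ℝ) = D / GG (gh h) D := by
  induction D using Nat.recOnPosPrimePosCoprime with
  | prime_pow p n hp hn =>
    have hn1 : n = 1 := by
      by_contra hne
      have h2 : 2 ≤ n := by omega
      have h3 : p * p ∣ p ^ n := by
        rw [← sq]
        exact pow_dvd_pow p h2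
      have := hD p h3
      exact hp.one_lt.ne' (Nat.isUnit_iff.mp this)
    subst hn1
    have hp0 : (p : ℝ) ≠ 0 := by exact_mod_cast hp.ne_zero
    rw [pow_one, ww_prime h p hp]
    unfold GG gh
    rw [hp.primeFactors, prod_singleton]
    split_ifs with hd
    · rw [div_self hp0, Nat.cast_one]
    · field_simp
      norm_num
  | zero => exact absurd hD not_squarefree_zero
  | one =>
    rw [ww_one]
    unfold GG
    simp
  | coprime a b ha hb hab iha ihb =>
    have hDa : Squarefree a := hD.squarefree_of_dvd (Dvd.intro _ rfl)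
    have hDb : Squarefree b := hD.squarefree_of_dvd (Dvd.intro_left _ rfl)
    rw [ww_mul h a b hab]
    have hG : GG (gh h) (a * b) = GG (gh h) a * GG (gh h) b := by
      unfold GG
      rw [hab.primeFactors_mul, prod_union hab.disjoint_primeFactors]
    rw [hG]
    push_cast
    rw [iha hDa, ihb hDb, div_mul_div_comm]

/-- PROOF. Let `w D` be the number of `x : ZMod D` with `x * (x + h) = 0`. (a) `w D = D / GG (gh h) D`
for squarefree `D`: `w p = 1` if `p ∣ h`, `2` otherwise, `w` is multiplicative on coprime arguments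
(`ZMod.chineseRemainder`), induction `Nat.recOnPosPrimePosCoprime` as in `sum_inv_totient` of
`Lib_MP_cde011_em/JLow.lean`, `GG` of a coprime product is the product
(`Nat.Coprime.primeFactors_mul`, `prod_union`). (b) The count is the sum over these `x` of the number
of `n` in `Ioc 0 N` with `(n : ZMod D) = x`, each within `1` of `N / D`
(`Pool.Agent.EMSeed.count_class` in `Lib_MP_cde011_em/BT.lean`, residue `x.val`).
(c) `w D ≤ D`. -/
theorem count_pairs (h D N : ℕ) (hh : 0 < h) (hD : Squarefree D) :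
    |(((Ioc 0 N).filter (fun n => D ∣ n * (n + h))).card : ℝ) - N / GG (gh h) D| ≤ D := by
  have hD0 : 0 < D := Nat.pos_of_ne_zero hD.ne_zero
  haveI : NeZero D := ⟨hD0.ne'⟩
  have hDr : (D : ℝ) ≠ 0 := by exact_mod_cast hD0.ne'
  classical
  set t : Finset (ZMod D) := Finset.univ.filter (fun x => x * (x + (h : ZMod D)) = 0) with ht
  have hcard : ww h D = t.card := by
    unfold ww
    rw [Nat.card_eq_fintype_card, Fintype.card_subtype]
  have hmaps : ∀ n ∈ (Ioc 0 N).filter (fun n => D ∣ n * (n + h)), ((n : ℕ) : ZMod D) ∈ t := by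
    intro n hn
    rw [mem_filter] at hn
    rw [ht, mem_filter]
    refine ⟨mem_univ _, ?_⟩
    have := (ZMod.natCast_eq_zero_iff (n * (n + h)) D).mpr hn.2
    push_cast at this
    exact this
  have hsum := Finset.card_eq_sum_card_fiberwise (s := (Ioc 0 N).filter (fun n => D ∣ n * (n + h)))
    (f := fun n : ℕ => (n : ZMod D)) (t := t) hmaps
  have hfib : ∀ x ∈ t, (((Ioc 0 N).filter (fun n => D ∣ n * (n + h))).filter
      (fun n : ℕ => (n : ZMod D) = x)) = (Ioc 0 N).filter (fun n => n ≡ x.val [MOD D]) := by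
    intro x hx
    rw [ht, mem_filter] at hx
    ext n
    rw [mem_filter, mem_filter, mem_filter]
    have hiff : ((n : ℕ) : ZMod D) = x ↔ n ≡ x.val [MOD D] := by
      rw [← ZMod.natCast_eq_natCast_iff, ZMod.natCast_zmod_val]
    constructor
    · rintro ⟨⟨h1, -⟩, h3⟩
      exact ⟨h1, hiff.mp h3⟩
    · rintro ⟨h1, h2⟩
      have h3 := hiff.mpr h2
      refine ⟨⟨h1, ?_⟩, h3⟩
      rw [← ZMod.natCast_eq_zero_iff]
      push_cast
      rw [h3]
      exact hx.2
  have hN : (N : ℝ) / GG (gh h) D = ∑ _x ∈ t, (N : ℝ) / D := by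
    rw [sum_const, nsmul_eq_mul, ← hcard, ww_eq h D hD]
    field_simp
  have hle : (t.card : ℝ) ≤ D := by
    have h1 : t.card ≤ Fintype.card (ZMod D) := Finset.card_le_univ t
    rw [ZMod.card] at h1
    exact_mod_cast h1
  rw [hsum, hN]
  push_cast
  rw [← sum_sub_distrib]
  refine (abs_sum_le_sum_abs _ _).trans ?_
  refine le_trans (b := ∑ _x ∈ t, (1 : ℝ)) (sum_le_sum fun x hx => ?_) ?_
  · rw [hfib x hx]
    exact count_class' hD0 N x.val
  · rw [sum_const, nsmul_eq_mul, mul_one]
    exact hle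

end Pool.Agent.MP2711
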