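import Mathlib
import Pool.Agent.Lib_MP_2711ad_nt.Defs
import Pool.Agent.Lib_MP_f1a94e_eck.Jlow

/-!
# P3: lower bound of the normalising sum
-/

set_option autoImplicit false

namespace Pool.Agent.MP2711

open Finset

private theorem jl_inv (z : ℕ) (hz : 1 ≤ z) :
    Real.log z / 2 ≤ ∑ g ∈ (Icc 1 z).filter Squarefree, ((g : ℝ))⁻¹ := by
  have hlog : Real.log z ≤ ∑ n ∈ Icc 1 z, ((n : ℝ))⁻¹ := by
    have h1 := log_add_one_le_harmonic z
    rw [harmonic_eq_sum_Icc] at h1
    push_cast at h1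
    refine le_trans (Real.log_le_log ?_ ?_) h1
    · exact_mod_cast hz
    · linarith
  set S := (Icc 1 z).filter Squarefree with hS
  have hex : ∀ n : ℕ, ∃ p : ℕ × ℕ, p.1 ^ 2 * p.2 = n ∧ Squarefree p.2 := by
    intro n
    obtain ⟨a, b, h1, h2⟩ := Nat.sq_mul_squarefree n
    exact ⟨(b, a), h1, h2⟩
  choose e he1 he2 using hex
  have hinj : Function.Injective e := by
    intro x y hxy
    rw [← he1 x, ← he1 y, hxy]
  have hsum : ∑ n ∈ Icc 1 z, ((n : ℝ))⁻¹ ≤
      ∑ p ∈ Icc 1 z ×ˢ S, ((p.1 : ℝ) ^ 2)⁻¹ * ((p.2 : ℝ))⁻¹ := by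
    have h1 : ∑ n ∈ Icc 1 z, ((n : ℝ))⁻¹ =
        ∑ p ∈ (Icc 1 z).image e, ((p.1 : ℝ) ^ 2)⁻¹ * ((p.2 : ℝ))⁻¹ := by
      rw [sum_image (fun x _ y _ h => hinj h)]
      apply sum_congr rfl
      intro n _
      have : (n : ℝ) = ((e n).1 : ℝ) ^ 2 * ((e n).2 : ℝ) := by
        exact_mod_cast (he1 n).symm
      rw [this, mul_inv]
    rw [h1]
    apply sum_le_sum_of_subset_of_nonneg
    · intro p hp
      rw [mem_image] at hp
      obtain ⟨n, hn, rfl⟩ := hp
      rw [mem_Icc] at hn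
      have h2 := he1 n
      have h3 : 1 ≤ (e n).1 := by
        rcases Nat.eq_zero_or_pos (e n).1 with h0 | h0
        · rw [h0] at h2
          simp at h2
          omega
        · exact h0
      have h4 : 1 ≤ (e n).2 := by
        rcases Nat.eq_zero_or_pos (e n).2 with h0 | h0
        · rw [h0] at h2
          simp at h2
          omega
        · exact h0
      have h5 : (e n).1 ≤ (e n).1 ^ 2 * (e n).2 := by
        calc (e n).1 = (e n).1 * 1 * 1 := by ring
          _ ≤ (e n).1 * (e n).1 * (e n).2 := by gcongr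
          _ = _ := by ring
      have h6 : (e n).2 ≤ (e n).1 ^ 2 * (e n).2 := by
        calc (e n).2 = 1 * (e n).2 := by ring
          _ ≤ (e n).1 ^ 2 * (e n).2 := Nat.mul_le_mul_right _ (Nat.one_le_pow _ _ h3)
      rw [mem_product, mem_Icc, hS, mem_filter, mem_Icc]
      exact ⟨⟨h3, by omega⟩, ⟨h4, by omega⟩, he2 n⟩
    · intro p _ _
      positivity
  rw [sum_product] at hsum
  have h2 : ∑ x ∈ Icc 1 z, ∑ y ∈ S, ((x : ℝ) ^ 2)⁻¹ * ((y : ℝ))⁻¹ =
      (∑ x ∈ Icc 1 z, ((x : ℝ) ^ 2)⁻¹) * ∑ y ∈ S, ((y : ℝ))⁻¹ := by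
    rw [Finset.sum_mul_sum]
  rw [h2] at hsum
  have h3 := Pool.Agent.EC.jlow_sq z
  have h4 : 0 ≤ ∑ y ∈ S, ((y : ℝ))⁻¹ := by positivity
  nlinarith

private theorem jl_SS (h : ℕ) :
    ∑ m ∈ h.divisors.filter Squarefree, ((m : ℝ))⁻¹ ≤ SS h := by
  unfold SS
  rw [Finset.prod_one_add]
  have h1 : ∑ m ∈ h.divisors.filter Squarefree, ((m : ℝ))⁻¹ =
      ∑ T ∈ (h.divisors.filter Squarefree).image Nat.primeFactors, ∏ p ∈ T, 1 / (p : ℝ) := by
    rw [Finset.sum_image]
    · apply Finset.sum_congr rfl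
      intro m hm
      rw [mem_filter] at hm
      have h2 := Nat.prod_primeFactors_of_squarefree hm.2
      rw [Finset.prod_div_distrib, Finset.prod_const_one, one_div]
      congr 1
      conv_lhs => rw [← h2]
      push_cast
      rfl
    · intro a ha b hb hab
      rw [Finset.mem_coe, mem_filter] at ha hb
      rw [← Nat.prod_primeFactors_of_squarefree ha.2, ← Nat.prod_primeFactors_of_squarefree hb.2]
      rw [hab]
  rw [h1]
  apply Finset.sum_le_sum_of_subset_of_nonneg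
  · intro T hT
    rw [mem_image] at hT
    obtain ⟨m, hm, rfl⟩ := hT
    rw [mem_filter, Nat.mem_divisors] at hm
    rw [mem_powerset]
    exact Nat.primeFactors_mono hm.1.1 hm.1.2
  · intro T _ _
    positivity

private theorem jl_count (h l : ℕ) (hl : Squarefree l) :
    (((l.divisors.filter (fun a => a.Coprime h)).card : ℕ) : ℝ) * ((l : ℝ))⁻¹ ≤
      1 / GG (gh h) l := by
  have h1 : 1 / GG (gh h) l = (∏ p ∈ l.primeFactors, (1 + (if p ∣ h then (0 : ℝ) else 1))) * ((l : ℝ))⁻¹ := by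
    have h2 : ((l : ℝ))⁻¹ = ∏ p ∈ l.primeFactors, ((p : ℝ))⁻¹ := by
      conv_lhs => rw [← Nat.prod_primeFactors_of_squarefree hl]
      push_cast
      rw [Finset.prod_inv_distrib]
    rw [h2, ← Finset.prod_mul_distrib]
    unfold GG gh
    rw [one_div, ← Finset.prod_inv_distrib]
    apply Finset.prod_congr rfl
    intro p hp
    have hp0 : (p : ℝ) ≠ 0 := by
      exact_mod_cast (Nat.prime_of_mem_primeFactors hp).ne_zero
    split_ifs
    · simp
    · field_simp
      norm_num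
  rw [h1]
  apply mul_le_mul_of_nonneg_right _ (by positivity)
  rw [Finset.prod_one_add]
  have h3 : (((l.divisors.filter (fun a => a.Coprime h)).card : ℕ) : ℝ) =
      ∑ T ∈ (l.divisors.filter (fun a => a.Coprime h)).image Nat.primeFactors,
        ∏ p ∈ T, (if p ∣ h then (0 : ℝ) else 1) := by
    rw [Finset.sum_image]
    · rw [Finset.card_eq_sum_ones]
      push_cast
      apply Finset.sum_congr rfl
      intro a ha
      rw [mem_filter, Nat.mem_divisors] at ha
      symm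
      apply Finset.prod_eq_one
      intro p hp
      rw [if_neg]
      intro hph
      have hpp := Nat.prime_of_mem_primeFactors hp
      have := Nat.dvd_gcd (Nat.dvd_of_mem_primeFactors hp) hph
      rw [ha.2] at this
      exact hpp.one_lt.ne' (Nat.dvd_one.1 this)
    · intro a ha b hb hab
      rw [Finset.mem_coe, mem_filter, Nat.mem_divisors] at ha hb
      rw [← Nat.prod_primeFactors_of_squarefree (hl.squarefree_of_dvd ha.1.1),
        ← Nat.prod_primeFactors_of_squarefree (hl.squarefree_of_dvd hb.1.1)]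
      rw [hab]
  rw [h3]
  apply Finset.sum_le_sum_of_subset_of_nonneg
  · intro T hT
    rw [mem_image] at hT
    obtain ⟨m, hm, rfl⟩ := hT
    rw [mem_filter, Nat.mem_divisors] at hm
    rw [mem_powerset]
    exact Nat.primeFactors_mono hm.1.1 hm.1.2
  · intro T _ _
    apply Finset.prod_nonneg
    intro p _
    split_ifs <;> norm_num

/-- the pairs with squarefree product, first member prime to `h` -/
private def jlU (h y : ℕ) : Finset (ℕ × ℕ) :=
  (Icc 1 y ×ˢ Icc 1 y).filter (fun u => Squarefree (u.1 * u.2) ∧ u.1.Coprime h)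

private theorem jl_U (h y : ℕ) :
    ∑ u ∈ jlU h y, ((u.1 : ℝ) * u.2)⁻¹ ≤ ∑ l ∈ (Icc 1 (y ^ 2)).filter Squarefree, 1 / GG (gh h) l := by
  have h1 : ∀ u ∈ jlU h y, u.1 * u.2 ∈ (Icc 1 (y ^ 2)).filter Squarefree := by
    intro u hu
    unfold jlU at hu
    rw [mem_filter, mem_product, mem_Icc, mem_Icc] at hu
    rw [mem_filter, mem_Icc]
    refine ⟨⟨Nat.mul_pos hu.1.1.1 hu.1.2.1, ?_⟩, hu.2.1⟩
    rw [sq]
    exact Nat.mul_le_mul hu.1.1.2 hu.1.2.2
  rw [← Finset.sum_fiberwise_of_maps_to h1]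
  apply Finset.sum_le_sum
  intro l hl
  rw [mem_filter] at hl
  refine le_trans ?_ (jl_count h l hl.2)
  have h2 : ∀ u ∈ (jlU h y).filter (fun u => u.1 * u.2 = l), ((u.1 : ℝ) * u.2)⁻¹ = ((l : ℝ))⁻¹ := by
    intro u hu
    rw [mem_filter] at hu
    rw [← hu.2]
    push_cast
    rfl
  rw [Finset.sum_congr rfl h2, Finset.sum_const, nsmul_eq_mul]
  apply mul_le_mul_of_nonneg_right _ (by positivity)
  have h3 : ((jlU h y).filter (fun u => u.1 * u.2 = l)).card ≤
      (l.divisors.filter (fun a => a.Coprime h)).card := by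
    apply Finset.card_le_card_of_injOn (fun u => u.1)
    · intro u hu
      rw [Finset.mem_coe, mem_filter] at hu
      have hu' := hu.1
      unfold jlU at hu'
      rw [mem_filter] at hu'
      rw [Finset.mem_coe, mem_filter, Nat.mem_divisors]
      exact ⟨⟨Dvd.intro _ hu.2, hl.2.ne_zero⟩, hu'.2.2⟩
    · intro u hu v hv huv
      rw [Finset.mem_coe, mem_filter] at hu hv
      simp only at huv
      have hu' := hu.1
      unfold jlU at hu'
      rw [mem_filter, mem_product, mem_Icc] at hu'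
      apply Prod.ext huv
      apply Nat.eq_of_mul_eq_mul_left hu'.1.1.1
      rw [hu.2, huv, hv.2]
  exact_mod_cast h3

private theorem jl_main (h y : ℕ) (hh : 0 < h) :
    (∑ a ∈ (Icc 1 y).filter Squarefree, ((a : ℝ))⁻¹) ^ 2 ≤
      (∑ m ∈ h.divisors.filter Squarefree, ((m : ℝ))⁻¹) *
        ((∑ g ∈ Icc 1 y, ((g : ℝ) ^ 2)⁻¹) * ∑ u ∈ jlU h y, ((u.1 : ℝ) * u.2)⁻¹) := by
  rw [sq, Finset.sum_mul_sum, ← Finset.sum_product', Finset.sum_mul_sum, ← Finset.sum_product',
    Finset.sum_mul_sum, ← Finset.sum_product']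
  obtain ⟨f, hf⟩ : ∃ f : ℕ × ℕ → ℕ × (ℕ × (ℕ × ℕ)), f = fun x =>
      (x.1.gcd h, ((x.1 / x.1.gcd h).gcd x.2,
        ((x.1 / x.1.gcd h) / ((x.1 / x.1.gcd h).gcd x.2), x.2 / ((x.1 / x.1.gcd h).gcd x.2)))) := ⟨_, rfl⟩
  have hfa : ∀ x : ℕ × ℕ, x.1 = (f x).1 * ((f x).2.1 * (f x).2.2.1) := by
    intro x
    rw [hf]
    simp only
    rw [Nat.mul_div_cancel' (Nat.gcd_dvd_left _ _), Nat.mul_div_cancel' (Nat.gcd_dvd_left _ _)]
  have hfb : ∀ x : ℕ × ℕ, x.2 = (f x).2.1 * (f x).2.2.2 := by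
    intro x
    rw [hf]
    simp only
    rw [Nat.mul_div_cancel' (Nat.gcd_dvd_right _ _)]
  have h1 : ∑ x ∈ (Icc 1 y).filter Squarefree ×ˢ (Icc 1 y).filter Squarefree, ((x.1 : ℝ))⁻¹ * ((x.2 : ℝ))⁻¹ =
      ∑ t ∈ ((Icc 1 y).filter Squarefree ×ˢ (Icc 1 y).filter Squarefree).image f,
        ((t.1 : ℝ))⁻¹ * (((t.2.1 : ℝ) ^ 2)⁻¹ * ((t.2.2.1 : ℝ) * t.2.2.2)⁻¹) := by
    rw [Finset.sum_image]
    · apply Finset.sum_congr rfl
      intro x _
      have e1 : (x.1 : ℝ) = (f x).1 * ((f x).2.1 * (f x).2.2.1) := by exact_mod_cast hfa x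
      have e2 : (x.2 : ℝ) = (f x).2.1 * (f x).2.2.2 := by exact_mod_cast hfb x
      rw [e1, e2]
      simp only [mul_inv, sq]
      ring
    · intro a _ b _ hab
      apply Prod.ext
      · rw [hfa a, hfa b, hab]
      · rw [hfb a, hfb b, hab]
  have h0 : ∑ x ∈ (Icc 1 y).filter Squarefree ×ˢ (Icc 1 y).filter Squarefree, ((x.1 : ℝ))⁻¹ * ((x.2 : ℝ))⁻¹ ≤
      ∑ t ∈ (h.divisors.filter Squarefree) ×ˢ (Icc 1 y ×ˢ jlU h y),
        ((t.1 : ℝ))⁻¹ * (((t.2.1 : ℝ) ^ 2)⁻¹ * ((t.2.2.1 : ℝ) * t.2.2.2)⁻¹) := by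
    rw [h1]
    apply Finset.sum_le_sum_of_subset_of_nonneg
    · intro t ht
      rw [mem_image] at ht
      obtain ⟨x, hx, rfl⟩ := ht
      rw [mem_product, mem_filter, mem_filter, mem_Icc, mem_Icc] at hx
      obtain ⟨⟨⟨ha1, ha2⟩, has⟩, ⟨hb1, hb2⟩, hbs⟩ := hx
      have ea := hfa x
      have eb := hfb x
      have q1 : 0 < (f x).1 := by
        rcases Nat.eq_zero_or_pos (f x).1 with h0 | h0
        · rw [h0, zero_mul] at ea
          omega
        · exact h0
      have q2 : 0 < (f x).2.1 := by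
        rcases Nat.eq_zero_or_pos (f x).2.1 with h0 | h0
        · rw [h0, zero_mul] at eb
          omega
        · exact h0
      have q3 : 0 < (f x).2.2.1 := by
        rcases Nat.eq_zero_or_pos (f x).2.2.1 with h0 | h0
        · rw [h0, mul_zero, mul_zero] at ea
          omega
        · exact h0
      have q4 : 0 < (f x).2.2.2 := by
        rcases Nat.eq_zero_or_pos (f x).2.2.2 with h0 | h0
        · rw [h0, mul_zero] at eb
          omega
        · exact h0
      have d1 : (f x).1 ∣ x.1 := Dvd.intro _ ea.symm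
      have d2 : (f x).2.1 * (f x).2.2.1 ∣ x.1 := Dvd.intro_left _ ea.symm
      have d3 : (f x).2.1 ∣ x.2 := Dvd.intro _ eb.symm
      have d4 : (f x).2.2.2 ∣ x.2 := Dvd.intro_left _ eb.symm
      have d5 : (f x).2.2.1 ∣ x.1 := (Dvd.intro_left _ rfl).trans d2
      have c1 : Nat.Coprime ((f x).2.1 * (f x).2.2.1) h := by
        rw [Nat.coprime_iff_gcd_eq_one]
        by_contra hne
        obtain ⟨r, hr, hrd⟩ := Nat.exists_prime_and_dvd hne
        have e2 : r ∣ (f x).2.1 * (f x).2.2.1 := hrd.trans (Nat.gcd_dvd_left _ _)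
        have e3 : r ∣ h := hrd.trans (Nat.gcd_dvd_right _ _)
        have e4 : r ∣ x.1.gcd h := Nat.dvd_gcd (e2.trans d2) e3
        have e5 : (f x).1 = x.1.gcd h := by rw [hf]
        rw [← e5] at e4
        have e6 : r * r ∣ x.1 := by
          rw [ea]
          exact Nat.mul_dvd_mul e4 e2
        exact hr.one_lt.ne' (Nat.isUnit_iff.mp (has r e6))
      have c2 : Nat.Coprime (f x).2.2.1 (f x).2.2.2 := by
        rw [Nat.coprime_iff_gcd_eq_one]
        by_contra hne
        obtain ⟨r, hr, hrd⟩ := Nat.exists_prime_and_dvd hne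
        have e2 : r ∣ (f x).2.2.1 := hrd.trans (Nat.gcd_dvd_left _ _)
        have e3 : r ∣ (f x).2.2.2 := hrd.trans (Nat.gcd_dvd_right _ _)
        have e4 : (f x).2.1 = (x.1 / x.1.gcd h).gcd x.2 := by rw [hf]
        have e5 : x.1 / x.1.gcd h = (f x).2.1 * (f x).2.2.1 := by
          have e6 : x.1.gcd h = (f x).1 := by rw [hf]
          rw [e6]
          conv_lhs => rw [ea]
          exact Nat.mul_div_cancel_left _ q1
        have e7 : (f x).2.1 * r ∣ (x.1 / x.1.gcd h).gcd x.2 := by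
          apply Nat.dvd_gcd
          · rw [e5]
            exact Nat.mul_dvd_mul_left _ e2
          · rw [eb]
            exact Nat.mul_dvd_mul_left _ e3
        rw [← e4] at e7
        have e8 : (f x).2.1 * r ≤ (f x).2.1 * 1 := by
          rw [mul_one]
          exact Nat.le_of_dvd q2 e7
        have e9 := Nat.le_of_mul_le_mul_left e8 q2
        have := hr.two_le
        omega
      rw [mem_product, mem_product, mem_filter, Nat.mem_divisors, mem_Icc]
      refine ⟨⟨⟨?_, hh.ne'⟩, has.squarefree_of_dvd d1⟩, ⟨q2, (Nat.le_of_dvd hb1 d3).trans hb2⟩, ?_⟩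
      · have e6 : x.1.gcd h = (f x).1 := by rw [hf]
        rw [← e6]
        exact Nat.gcd_dvd_right _ _
      · unfold jlU
        rw [mem_filter, mem_product, mem_Icc, mem_Icc]
        refine ⟨⟨⟨q3, (Nat.le_of_dvd ha1 d5).trans ha2⟩, ⟨q4, (Nat.le_of_dvd hb1 d4).trans hb2⟩⟩, ?_, ?_⟩
        · rw [Nat.squarefree_mul c2]
          exact ⟨has.squarefree_of_dvd d5, hbs.squarefree_of_dvd d4⟩
        · exact Nat.Coprime.coprime_dvd_left (Dvd.intro_left _ rfl) c1
    · intro t _ _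
      positivity
  exact h0

theorem J_low : ∃ c : ℝ, 0 < c ∧ ∀ h z : ℕ, 0 < h → 2 ≤ z →
    c * (Real.log z) ^ 2 ≤ SS h * ∑ l ∈ (Icc 1 z).filter Squarefree, 1 / GG (gh h) l := by
  refine ⟨1 / 128, by norm_num, ?_⟩
  intro h z hh hz
  obtain ⟨y, hy⟩ : ∃ y : ℕ, y = Nat.sqrt z := ⟨_, rfl⟩
  have hy1 : 1 ≤ y := by
    rw [hy, Nat.le_sqrt]
    omega
  have hyz : y ^ 2 ≤ z := by
    rw [hy, sq]
    exact Nat.sqrt_le z
  have hzy : z ≤ y * y + y + y := by
    rw [hy]
    exact Nat.sqrt_le_add z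
  have hGG : ∀ l : ℕ, 0 ≤ 1 / GG (gh h) l := by
    intro l
    unfold GG
    apply div_nonneg zero_le_one
    apply Finset.prod_nonneg
    intro p _
    unfold gh
    split_ifs <;> positivity
  have h1 := jl_inv y hy1
  have h2 := jl_main h y hh
  have h3 := jl_SS h
  have h4 := Pool.Agent.EC.jlow_sq y
  have h5 := jl_U h y
  have h6 : ∑ l ∈ (Icc 1 (y ^ 2)).filter Squarefree, 1 / GG (gh h) l ≤
      ∑ l ∈ (Icc 1 z).filter Squarefree, 1 / GG (gh h) l := by
    apply Finset.sum_le_sum_of_subset_of_nonneg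
    · intro l hl
      rw [mem_filter, mem_Icc] at hl ⊢
      exact ⟨⟨hl.1.1, hl.1.2.trans hyz⟩, hl.2⟩
    · intro l _ _
      exact hGG l
  set J := ∑ l ∈ (Icc 1 z).filter Squarefree, 1 / GG (gh h) l with hJ
  have hJ1 : 1 ≤ J := by
    have e1 : 1 / GG (gh h) 1 ≤ J := by
      rw [hJ]
      apply Finset.single_le_sum (f := fun l => 1 / GG (gh h) l) (fun l _ => hGG l)
      rw [mem_filter, mem_Icc]
      exact ⟨⟨le_rfl, by omega⟩, squarefree_one⟩
    simpa [GG] using e1
  have hSS1 : 0 ≤ SS h := by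
    unfold SS
    apply Finset.prod_nonneg
    intro p _
    positivity
  have hU0 : 0 ≤ ∑ u ∈ jlU h y, ((u.1 : ℝ) * u.2)⁻¹ := by positivity
  have h7 : (∑ a ∈ (Icc 1 y).filter Squarefree, ((a : ℝ))⁻¹) ^ 2 ≤ SS h * (2 * J) := by
    refine h2.trans ?_
    apply mul_le_mul h3 _ (by positivity) hSS1
    exact mul_le_mul h4 (h5.trans h6) hU0 (by norm_num)
  have hly : 0 ≤ Real.log y := Real.log_nonneg (by exact_mod_cast hy1)
  have h8 : (Real.log y / 2) ^ 2 ≤ SS h * (2 * J) :=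
    (pow_le_pow_left₀ (by positivity) h1 2).trans h7
  have hlz : 0 ≤ Real.log z := Real.log_nonneg (by exact_mod_cast (by omega : 1 ≤ z))
  by_cases hy2 : y = 1
  · have h9 : (z : ℝ) ≤ 3 := by
      have : z ≤ 3 := by
        rw [hy2] at hzy
        omega
      exact_mod_cast this
    have h10 : Real.log z ≤ 2 := by
      have e1 : (0 : ℝ) < z := by exact_mod_cast (by omega : 0 < z)
      have := Real.log_le_sub_one_of_pos e1
      linarith
    have h11 : (1 : ℝ) ≤ SS h := by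
      unfold SS
      calc (1 : ℝ) = ∏ p ∈ h.primeFactors, (1 : ℝ) := by simp
        _ ≤ ∏ p ∈ h.primeFactors, (1 + 1 / (p : ℝ)) := by
            apply Finset.prod_le_prod
            · intro p _
              norm_num
            · intro p _
              have : (0 : ℝ) ≤ 1 / (p : ℝ) := by positivity
              linarith
    have h12 : 1 ≤ SS h * J := by nlinarith
    nlinarith
  · have hy3 : 2 ≤ y := by omega
    have h9 : Real.log z ≤ 3 * Real.log y := by
      have e1 : (z : ℝ) ≤ (y : ℝ) ^ 3 := by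
        have e2 : z ≤ y ^ 3 := by
          have : y * y + y + y ≤ y ^ 3 := by
            have : y ^ 3 = y * y * y := by ring
            nlinarith
          omega
        exact_mod_cast e2
      have e3 : (0 : ℝ) < z := by exact_mod_cast (by omega : 0 < z)
      have := Real.log_le_log e3 e1
      rwa [Real.log_pow] at this
    nlinarith

end Pool.Agent.MP2711
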