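import Mathlib
import Pool.Agent.Lib_MP_2711ad_nt.Defs
import Pool.Agent.Lib_MP_f1a94e_eck.Svw

/-!
# P1: Selberg weights for a general local factor
-/

set_option autoImplicit false

namespace Pool.Agent.MP2711

open Finset Pool.Agent.EC

theorem GG_one (g : ℕ → ℝ) : GG g 1 = 1 := by simp [GG]

theorem FF_pos {g : ℕ → ℝ} (hg : ∀ p : ℕ, p.Prime → 1 < g p ∧ g p ≤ p) (d : ℕ) : 0 < FF g d := by
  unfold FF
  apply Finset.prod_pos
  intro p hp
  have := (hg p (Nat.prime_of_mem_primeFactors hp)).1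
  linarith

theorem GG_pos {g : ℕ → ℝ} (hg : ∀ p : ℕ, p.Prime → 1 < g p ∧ g p ≤ p) (d : ℕ) : 0 < GG g d := by
  unfold GG
  apply Finset.prod_pos
  intro p hp
  have := (hg p (Nat.prime_of_mem_primeFactors hp)).1
  linarith

theorem GG_le {g : ℕ → ℝ} (hg : ∀ p : ℕ, p.Prime → 1 < g p ∧ g p ≤ p) {d : ℕ} (hd : 1 ≤ d) :
    GG g d ≤ d := by
  unfold GG
  calc ∏ p ∈ d.primeFactors, g p ≤ ∏ p ∈ d.primeFactors, (p : ℝ) := by
        apply Finset.prod_le_prod
        · intro p hp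
          have := (hg p (Nat.prime_of_mem_primeFactors hp)).1
          linarith
        · intro p hp
          exact (hg p (Nat.prime_of_mem_primeFactors hp)).2
    _ = ((∏ p ∈ d.primeFactors, p : ℕ) : ℝ) := by push_cast; rfl
    _ ≤ d := by
        exact_mod_cast Nat.le_of_dvd hd (Nat.prod_primeFactors_dvd d)

theorem GG_lcm (g : ℕ → ℝ) {a b : ℕ} (ha : a ≠ 0) (hb : b ≠ 0) :
    GG g (Nat.lcm a b) * GG g (Nat.gcd a b) = GG g a * GG g b := by
  unfold GG
  rw [Nat.primeFactors_gcd ha hb]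
  have h1 : (Nat.lcm a b).primeFactors = a.primeFactors ∪ b.primeFactors := by
    ext p
    rw [Finset.mem_union, Nat.mem_primeFactors_of_ne_zero (Nat.lcm_ne_zero ha hb),
      Nat.mem_primeFactors_of_ne_zero ha, Nat.mem_primeFactors_of_ne_zero hb]
    constructor
    · rintro ⟨hp, hd⟩
      rcases (Nat.Prime.dvd_lcm hp).1 hd with h | h
      · exact Or.inl ⟨hp, h⟩
      · exact Or.inr ⟨hp, h⟩
    · rintro (⟨hp, h⟩ | ⟨hp, h⟩)
      · exact ⟨hp, h.trans (Nat.dvd_lcm_left a b)⟩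
      · exact ⟨hp, h.trans (Nat.dvd_lcm_right a b)⟩
  rw [h1, Finset.prod_union_inter]

theorem sum_FF (g : ℕ → ℝ) {n : ℕ} (hn : Squarefree n) :
    ∑ l ∈ n.divisors, FF g l = GG g n := by
  have h1 := (ArithmeticFunction.IsMultiplicative.prodPrimeFactors
    (fun p => g p - 1)).prodPrimeFactors_one_add_of_squarefree hn
  have h2 : ∏ p ∈ n.primeFactors, (1 + ArithmeticFunction.prodPrimeFactors (fun p => g p - 1) p) =
      GG g n := by
    unfold GG
    apply Finset.prod_congr rfl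
    intro p hp
    have hp' := Nat.prime_of_mem_primeFactors hp
    rw [ArithmeticFunction.prodPrimeFactors_apply hp'.ne_zero, hp'.primeFactors]
    simp
  rw [← h2, h1]
  apply Finset.sum_congr rfl
  intro l hl
  have hl0 : l ≠ 0 := (Nat.pos_of_mem_divisors hl).ne'
  rw [ArithmeticFunction.prodPrimeFactors_apply hl0]
  rfl

theorem gcd_FF (g : ℕ → ℝ) (z : ℕ) {d1 d2 : ℕ} (h1 : d1 ∈ Icc 1 z) (hs : Squarefree d1) :
    GG g (Nat.gcd d1 d2) = ∑ h ∈ Icc 1 z, (if h ∣ d1 ∧ h ∣ d2 then FF g h else 0) := by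
  rw [Finset.mem_Icc] at h1
  rw [← Finset.sum_filter]
  have h2 : (Icc 1 z).filter (fun h => h ∣ d1 ∧ h ∣ d2) = (Nat.gcd d1 d2).divisors := by
    ext h
    simp only [Finset.mem_filter, Finset.mem_Icc, Nat.mem_divisors, Nat.dvd_gcd_iff]
    constructor
    · rintro ⟨-, h3, h4⟩
      exact ⟨⟨h3, h4⟩, Nat.gcd_ne_zero_left (by omega)⟩
    · rintro ⟨⟨h3, h4⟩, -⟩
      exact ⟨⟨Nat.pos_of_dvd_of_pos h3 h1.1, (Nat.le_of_dvd h1.1 h3).trans h1.2⟩, h3, h4⟩
  rw [h2, sum_FF g (hs.squarefree_of_dvd (Nat.gcd_dvd_left d1 d2))]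

/-- the optimal weights -/
noncomputable def swR (g : ℕ → ℝ) (z : ℕ) (J : ℝ) (d : ℕ) : ℝ :=
  (GG g d / J) * ∑ e ∈ Icc 1 z, (if d ∣ e then ((ArithmeticFunction.moebius (e / d) : ℤ) : ℝ) *
    ((ArithmeticFunction.moebius e : ℤ) : ℝ) / FF g e else 0)

theorem musq (g : ℕ → ℝ) (e : ℕ) : ((ArithmeticFunction.moebius e : ℤ) : ℝ) *
    ((ArithmeticFunction.moebius e : ℤ) : ℝ) / FF g e =
      if Squarefree e then 1 / FF g e else 0 := by
  split_ifs with h
  · have h1 := ArithmeticFunction.moebius_sq_eq_one_of_squarefree h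
    have h2 : ((ArithmeticFunction.moebius e : ℤ) : ℝ) * ((ArithmeticFunction.moebius e : ℤ) : ℝ) = 1 := by
      rw [← sq]
      exact_mod_cast h1
    rw [h2]
  · rw [ArithmeticFunction.moebius_eq_zero_of_not_squarefree h]
    simp

theorem swR_y {g : ℕ → ℝ} (hg : ∀ p : ℕ, p.Prime → 1 < g p ∧ g p ≤ p) (z : ℕ) (J : ℝ) (h : ℕ)
    (hh : h ∈ Icc 1 z) :
    ∑ d ∈ Icc 1 z, (if h ∣ d then swR g z J d / GG g d else 0) =
      ((ArithmeticFunction.moebius h : ℤ) : ℝ) / (FF g h * J) := by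
  rw [Finset.mem_Icc] at hh
  have h1 : ∀ d ∈ Icc 1 z, (if h ∣ d then swR g z J d / GG g d else 0) = ∑ e ∈ Icc 1 z,
      ((1 / J) * (((ArithmeticFunction.moebius e : ℤ) : ℝ) / FF g e)) *
        (if h ∣ d ∧ d ∣ e then ((ArithmeticFunction.moebius (e / d) : ℤ) : ℝ) else 0) := by
    intro d hd
    rw [Finset.mem_Icc] at hd
    have hd0 : GG g d ≠ 0 := (GG_pos hg d).ne'
    by_cases hc : h ∣ d
    · rw [if_pos hc]
      unfold swR
      rw [mul_div_right_comm, Finset.mul_sum]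
      apply Finset.sum_congr rfl
      intro e _
      by_cases hge : d ∣ e
      · rw [if_pos hge, if_pos ⟨hc, hge⟩]
        field_simp
      · rw [if_neg hge, if_neg (c := h ∣ d ∧ d ∣ e) (fun hcon => hge hcon.2)]
        ring
    · rw [if_neg hc]
      symm
      apply Finset.sum_eq_zero
      intro e _
      rw [if_neg (c := h ∣ d ∧ d ∣ e) (fun hcon => hc hcon.1), mul_zero]
  rw [Finset.sum_congr rfl h1, Finset.sum_comm]
  have h2 : ∀ e ∈ Icc 1 z, ∑ d ∈ Icc 1 z,
      ((1 / J) * (((ArithmeticFunction.moebius e : ℤ) : ℝ) / FF g e)) *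
        (if h ∣ d ∧ d ∣ e then ((ArithmeticFunction.moebius (e / d) : ℤ) : ℝ) else 0) =
      if h = e then ((1 / J) * (((ArithmeticFunction.moebius e : ℤ) : ℝ) / FF g e)) else 0 := by
    intro e he
    rw [Finset.mem_Icc] at he
    rw [← Finset.mul_sum, svw_inner z e h he.1 he.2 hh.1]
    by_cases hc : e = h
    · rw [if_pos hc, if_pos hc.symm, mul_one]
    · rw [if_neg hc, if_neg (c := h = e) (fun hcon => hc hcon.symm), mul_zero]
  rw [Finset.sum_congr rfl h2, Finset.sum_ite_eq, if_pos (Finset.mem_Icc.2 hh)]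
  rw [one_div, inv_mul_eq_div, div_div]

theorem weights (g : ℕ → ℝ) (hg : ∀ p : ℕ, p.Prime → 1 < g p ∧ g p ≤ p) (z : ℕ) (hz : 1 ≤ z) :
    ∃ R : ℕ → ℝ, R 1 = 1 ∧ (∀ d, ¬ Squarefree d → R d = 0) ∧ (∀ d ∈ Icc 1 z, |R d| ≤ z) ∧
      ∑ d1 ∈ Icc 1 z, ∑ d2 ∈ Icc 1 z, R d1 * R d2 / GG g (Nat.lcm d1 d2) =
        1 / ∑ l ∈ (Icc 1 z).filter Squarefree, 1 / FF g l := by
  obtain ⟨J, hJd⟩ : ∃ J : ℝ, J = ∑ l ∈ (Icc 1 z).filter Squarefree, 1 / FF g l := ⟨_, rfl⟩
  have hJ : 0 < J := by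
    rw [hJd]
    apply Finset.sum_pos
    · intro l _
      exact one_div_pos.2 (FF_pos hg l)
    · exact ⟨1, by rw [mem_filter, mem_Icc]; exact ⟨⟨le_rfl, hz⟩, squarefree_one⟩⟩
  rw [← hJd]
  have hR0 : ∀ d, ¬ Squarefree d → swR g z J d = 0 := by
    intro d hd
    unfold swR
    rw [Finset.sum_eq_zero, mul_zero]
    intro e _
    split_ifs with h1
    · rw [ArithmeticFunction.moebius_eq_zero_of_not_squarefree
        (fun he => hd (he.squarefree_of_dvd h1))]
      simp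
    · rfl
  refine ⟨swR g z J, ?_, hR0, ?_, ?_⟩
  · unfold swR
    have h1 : ∑ e ∈ Icc 1 z, (if 1 ∣ e then ((ArithmeticFunction.moebius (e / 1) : ℤ) : ℝ) *
        ((ArithmeticFunction.moebius e : ℤ) : ℝ) / FF g e else 0) = J := by
      rw [hJd, Finset.sum_filter]
      apply Finset.sum_congr rfl
      intro e _
      rw [if_pos (one_dvd e), Nat.div_one, musq]
    rw [h1, GG_one]
    field_simp
  · intro d hd
    rw [mem_Icc] at hd
    unfold swR
    have hG := GG_pos hg d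
    rw [abs_mul, abs_of_nonneg (by positivity)]
    have h1 : |∑ e ∈ Icc 1 z, (if d ∣ e then ((ArithmeticFunction.moebius (e / d) : ℤ) : ℝ) *
        ((ArithmeticFunction.moebius e : ℤ) : ℝ) / FF g e else 0)| ≤ J := by
      refine (Finset.abs_sum_le_sum_abs _ _).trans ?_
      rw [hJd, Finset.sum_filter]
      apply Finset.sum_le_sum
      intro e _
      have hF := FF_pos hg e
      by_cases h2 : d ∣ e
      · rw [if_pos h2]
        by_cases h3 : Squarefree e
        · rw [if_pos h3, abs_div, abs_mul, abs_of_pos hF]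
          apply div_le_div_of_nonneg_right _ hF.le
          have h4 : |((ArithmeticFunction.moebius (e / d) : ℤ) : ℝ)| ≤ 1 := by
            exact_mod_cast ArithmeticFunction.abs_moebius_le_one (n := e / d)
          have h5 : |((ArithmeticFunction.moebius e : ℤ) : ℝ)| ≤ 1 := by
            exact_mod_cast ArithmeticFunction.abs_moebius_le_one (n := e)
          have h6 := abs_nonneg ((ArithmeticFunction.moebius e : ℤ) : ℝ)
          have h7 := abs_nonneg ((ArithmeticFunction.moebius (e / d) : ℤ) : ℝ)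
          nlinarith
        · rw [ArithmeticFunction.moebius_eq_zero_of_not_squarefree h3, if_neg h3]
          simp
      · rw [if_neg h2, abs_zero]
        split_ifs
        · positivity
        · exact le_rfl
    have h2 : GG g d ≤ d := GG_le hg hd.1
    have h3 : (d : ℝ) ≤ z := by exact_mod_cast hd.2
    calc GG g d / J * _ ≤ GG g d / J * J := mul_le_mul_of_nonneg_left h1 (by positivity)
      _ = GG g d := by field_simp
      _ ≤ z := h2.trans h3
  · obtain ⟨R, hRd⟩ : ∃ R : ℕ → ℝ, R = swR g z J := ⟨_, rfl⟩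
    rw [← hRd] at hR0 ⊢
    have h3 : ∀ d1 ∈ Icc 1 z, ∀ d2 ∈ Icc 1 z, R d1 * R d2 / GG g (Nat.lcm d1 d2) =
        ∑ h ∈ Icc 1 z, FF g h * ((if h ∣ d1 then R d1 / GG g d1 else 0) *
          (if h ∣ d2 then R d2 / GG g d2 else 0)) := by
      intro d1 hd1 d2 hd2
      have e1 := Finset.mem_Icc.1 hd1
      have e2 := Finset.mem_Icc.1 hd2
      by_cases s1 : Squarefree d1
      · have p4 := GG_lcm g (a := d1) (b := d2) (by omega) (by omega)
        have q1 := GG_pos hg d1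
        have q2 := GG_pos hg d2
        have q3 := GG_pos hg (Nat.lcm d1 d2)
        have p5 : R d1 * R d2 / GG g (Nat.lcm d1 d2) =
            GG g (Nat.gcd d1 d2) * (R d1 / GG g d1 * (R d2 / GG g d2)) := by
          have p6 : R d1 / GG g d1 * (R d2 / GG g d2) = R d1 * R d2 / (GG g d1 * GG g d2) := by
            field_simp
          rw [p6, ← p4]
          have p7 : GG g (Nat.gcd d1 d2) ≠ 0 := (GG_pos hg _).ne'
          field_simp
        rw [p5, gcd_FF g z hd1 s1, Finset.sum_mul]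
        apply Finset.sum_congr rfl
        intro h _
        by_cases a : h ∣ d1 <;> by_cases b : h ∣ d2 <;> simp [a, b]
      · rw [hR0 d1 s1]
        simp
    rw [Finset.sum_congr rfl fun d1 hd1 => Finset.sum_congr rfl fun d2 hd2 => h3 d1 hd1 d2 hd2]
    have h4 : ∑ d1 ∈ Icc 1 z, ∑ d2 ∈ Icc 1 z, ∑ h ∈ Icc 1 z, FF g h *
        ((if h ∣ d1 then R d1 / GG g d1 else 0) * (if h ∣ d2 then R d2 / GG g d2 else 0)) =
        ∑ h ∈ Icc 1 z, FF g h * (∑ d ∈ Icc 1 z, (if h ∣ d then R d / GG g d else 0)) ^ 2 := by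
      have e1 : ∀ d1 ∈ Icc 1 z, ∑ d2 ∈ Icc 1 z, ∑ h ∈ Icc 1 z, FF g h *
        ((if h ∣ d1 then R d1 / GG g d1 else 0) * (if h ∣ d2 then R d2 / GG g d2 else 0)) =
          ∑ h ∈ Icc 1 z, ∑ d2 ∈ Icc 1 z, FF g h *
        ((if h ∣ d1 then R d1 / GG g d1 else 0) * (if h ∣ d2 then R d2 / GG g d2 else 0)) :=
        fun d1 _ => Finset.sum_comm
      rw [Finset.sum_congr rfl e1, Finset.sum_comm]
      apply Finset.sum_congr rfl
      intro h _
      rw [sq, Finset.sum_mul_sum, Finset.mul_sum]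
      apply Finset.sum_congr rfl
      intro d1 _
      rw [Finset.mul_sum]
    rw [h4]
    have h5 : ∀ h ∈ Icc 1 z, FF g h * (∑ d ∈ Icc 1 z, (if h ∣ d then R d / GG g d else 0)) ^ 2 =
        (1 / J ^ 2) * (if Squarefree h then 1 / FF g h else 0) := by
      intro h hh
      rw [hRd, swR_y hg z J h hh]
      have h6 : FF g h ≠ 0 := (FF_pos hg h).ne'
      rw [← musq]
      field_simp
    rw [Finset.sum_congr rfl h5, ← Finset.mul_sum, ← Finset.sum_filter, ← hJd]
    field_simp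

end Pool.Agent.MP2711
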