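import Mathlib
import Pool.Agent.Lib_MP_2711ad_nt.Weights
import Pool.Agent.Lib_MP_2711ad_nt.Count
import Pool.Agent.Lib_MP_2711ad_nt.JLow

/-!
# P4: upper bound for prime pairs
-/

set_option autoImplicit false

namespace Pool.Agent.MP2711

open Finset

theorem gh_even {h : ℕ} (he : 2 ∣ h) (p : ℕ) (hp : p.Prime) : 1 < gh h p ∧ gh h p ≤ p := by
  unfold gh
  have h2 : (2 : ℝ) ≤ p := by exact_mod_cast hp.two_le
  split_ifs with h1
  · exact ⟨by linarith, le_rfl⟩
  · have h3 : p ≠ 2 := by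
      rintro rfl
      exact h1 he
    have h4 : 3 ≤ p := by
      have := hp.two_le
      omega
    have h5 : (3 : ℝ) ≤ p := by exact_mod_cast h4
    constructor <;> linarith

theorem one_le_SS (h : ℕ) : 1 ≤ SS h := by
  unfold SS
  calc (1 : ℝ) = ∏ p ∈ h.primeFactors, (1 : ℝ) := by simp
    _ ≤ ∏ p ∈ h.primeFactors, (1 + 1 / (p : ℝ)) := by
        apply Finset.prod_le_prod
        · intro p _
          norm_num
        · intro p _
          have : (0 : ℝ) ≤ 1 / (p : ℝ) := by positivity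
          linarith

theorem J_ge {g : ℕ → ℝ} (hg : ∀ p : ℕ, p.Prime → 1 < g p ∧ g p ≤ p) (z : ℕ) :
    ∑ l ∈ (Icc 1 z).filter Squarefree, 1 / GG g l ≤ ∑ l ∈ (Icc 1 z).filter Squarefree, 1 / FF g l := by
  apply Finset.sum_le_sum
  intro l _
  apply one_div_le_one_div_of_le (FF_pos hg l)
  unfold FF GG
  apply Finset.prod_le_prod
  · intro p hp
    have := (hg p (Nat.prime_of_mem_primeFactors hp)).1
    linarith
  · intro p hp
    linarith

/-- the sum of the squares over `n`, expanded -/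
theorem expand (R : ℕ → ℝ) (z N h : ℕ) :
    ∑ n ∈ Ioc 0 N, (∑ d ∈ Icc 1 z, if d ∣ n * (n + h) then R d else 0) ^ 2 =
      ∑ d1 ∈ Icc 1 z, ∑ d2 ∈ Icc 1 z, R d1 * R d2 *
        (((Ioc 0 N).filter (fun n => Nat.lcm d1 d2 ∣ n * (n + h))).card : ℝ) := by
  have h1 : ∀ n ∈ Ioc 0 N, (∑ d ∈ Icc 1 z, if d ∣ n * (n + h) then R d else 0) ^ 2 =
      ∑ d1 ∈ Icc 1 z, ∑ d2 ∈ Icc 1 z, R d1 * R d2 *
        (if Nat.lcm d1 d2 ∣ n * (n + h) then 1 else 0) := by
    intro n _
    rw [sq, Finset.sum_mul_sum]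
    apply Finset.sum_congr rfl
    intro d1 _
    apply Finset.sum_congr rfl
    intro d2 _
    have h3 : Nat.lcm d1 d2 ∣ n * (n + h) ↔ d1 ∣ n * (n + h) ∧ d2 ∣ n * (n + h) :=
      Nat.lcm_dvd_iff
    by_cases a : d1 ∣ n * (n + h) <;> by_cases b : d2 ∣ n * (n + h) <;> simp [h3, a, b]
  rw [Finset.sum_congr rfl h1, Finset.sum_comm]
  apply Finset.sum_congr rfl
  intro d1 _
  rw [Finset.sum_comm]
  apply Finset.sum_congr rfl
  intro d2 _
  rw [← Finset.mul_sum, Finset.sum_boole]

theorem lcm_sqf {a b : ℕ} (ha : Squarefree a) (hb : Squarefree b) : Squarefree (Nat.lcm a b) := by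
  rw [Nat.squarefree_iff_factorization_le_one (Nat.lcm_ne_zero ha.ne_zero hb.ne_zero)]
  intro p
  rw [Nat.factorization_lcm ha.ne_zero hb.ne_zero, Finsupp.sup_apply]
  exact max_le ((Nat.squarefree_iff_factorization_le_one ha.ne_zero).1 ha p)
    ((Nat.squarefree_iff_factorization_le_one hb.ne_zero).1 hb p)

theorem sieve_even {h : ℕ} (hh : 0 < h) (he : 2 ∣ h) (z N : ℕ) (hz : 1 ≤ z) :
    (((Icc 1 N).filter (fun p => p.Prime ∧ (p + h).Prime)).card : ℝ) ≤
      z + (z : ℝ) ^ 6 + N * (1 / ∑ l ∈ (Icc 1 z).filter Squarefree, 1 / FF (gh h) l) := by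
  obtain ⟨R, hR1, hR0, hRz, hRJ⟩ := weights (gh h) (gh_even he) z hz
  have h1 : (((Icc 1 N).filter (fun p => p.Prime ∧ (p + h).Prime)).card : ℝ) ≤
      z + ∑ n ∈ Ioc 0 N, (∑ d ∈ Icc 1 z, if d ∣ n * (n + h) then R d else 0) ^ 2 := by
    have h2 : (Icc 1 N).filter (fun p => p.Prime ∧ (p + h).Prime) ⊆
        Icc 1 z ∪ (Ioc 0 N).filter (fun p => z < p ∧ p.Prime ∧ (p + h).Prime) := by
      intro p hp
      rw [mem_filter, mem_Icc] at hp
      rw [mem_union, mem_filter, mem_Icc, mem_Ioc]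
      by_cases hc : p ≤ z
      · left
        exact ⟨hp.1.1, hc⟩
      · right
        exact ⟨⟨by omega, hp.1.2⟩, by omega, hp.2⟩
    have h3 := (Finset.card_le_card h2).trans (Finset.card_union_le _ _)
    have h4 : (((Ioc 0 N).filter (fun p => z < p ∧ p.Prime ∧ (p + h).Prime)).card : ℝ) ≤
        ∑ n ∈ Ioc 0 N, (∑ d ∈ Icc 1 z, if d ∣ n * (n + h) then R d else 0) ^ 2 := by
      rw [Finset.card_filter]
      push_cast
      apply Finset.sum_le_sum
      intro n hn
      split_ifs with hc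
      · have h5 : ∑ d ∈ Icc 1 z, (if d ∣ n * (n + h) then R d else 0) = 1 := by
          rw [Finset.sum_eq_single_of_mem 1 (mem_Icc.2 ⟨le_rfl, hz⟩)]
          · simp [hR1]
          · intro d hd hd1
            rw [mem_Icc] at hd
            rw [if_neg]
            intro hdv
            obtain ⟨q, hq, hqd⟩ := Nat.exists_prime_and_dvd hd1
            have hqz : q ≤ z := (Nat.le_of_dvd (by omega) hqd).trans hd.2
            rcases (Nat.Prime.dvd_mul hq).1 (hqd.trans hdv) with h6 | h6
            · have := (Nat.prime_dvd_prime_iff_eq hq hc.2.1).1 h6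
              omega
            · have := (Nat.prime_dvd_prime_iff_eq hq hc.2.2).1 h6
              omega
        rw [h5]
        norm_num
      · positivity
    have h6 : (((Icc 1 N).filter (fun p => p.Prime ∧ (p + h).Prime)).card : ℝ) ≤
        ((Icc 1 z).card : ℝ) + (((Ioc 0 N).filter (fun p => z < p ∧ p.Prime ∧ (p + h).Prime)).card : ℝ) := by
      exact_mod_cast h3
    rw [Nat.card_Icc, Nat.add_sub_cancel] at h6
    linarith
  refine h1.trans ?_
  rw [expand, ← hRJ, add_assoc]
  apply add_le_add le_rfl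
  rw [Finset.mul_sum]
  have h7 : ∀ d1 ∈ Icc 1 z, ∑ d2 ∈ Icc 1 z, R d1 * R d2 *
        (((Ioc 0 N).filter (fun n => Nat.lcm d1 d2 ∣ n * (n + h))).card : ℝ) ≤
      (z : ℝ) ^ 5 + N * ∑ d2 ∈ Icc 1 z, R d1 * R d2 / GG (gh h) (Nat.lcm d1 d2) := by
    intro d1 hd1
    have h8 : ∀ d2 ∈ Icc 1 z, R d1 * R d2 *
        (((Ioc 0 N).filter (fun n => Nat.lcm d1 d2 ∣ n * (n + h))).card : ℝ) ≤
        (z : ℝ) ^ 4 + N * (R d1 * R d2 / GG (gh h) (Nat.lcm d1 d2)) := by
      intro d2 hd2
      by_cases s1 : Squarefree d1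
      · by_cases s2 : Squarefree d2
        · have h9 := count_pairs h (Nat.lcm d1 d2) N hh (lcm_sqf s1 s2)
          have e1 := Finset.mem_Icc.1 hd1
          have e2 := Finset.mem_Icc.1 hd2
          have h10 : ((Nat.lcm d1 d2 : ℕ) : ℝ) ≤ (z : ℝ) ^ 2 := by
            have : Nat.lcm d1 d2 ≤ z ^ 2 := by
              calc Nat.lcm d1 d2 ≤ d1 * d2 := Nat.le_of_dvd (Nat.mul_pos e1.1 e2.1)
                    (Nat.lcm_dvd (Dvd.intro _ rfl) (Dvd.intro_left _ rfl))
                _ ≤ z * z := Nat.mul_le_mul e1.2 e2.2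
                _ = z ^ 2 := (sq z).symm
            exact_mod_cast this
          obtain ⟨c, hc⟩ : ∃ c : ℝ, c = (((Ioc 0 N).filter (fun n => Nat.lcm d1 d2 ∣ n * (n + h))).card : ℝ) :=
            ⟨_, rfl⟩
          rw [← hc] at h9 ⊢
          have h11 : R d1 * R d2 * c - N * (R d1 * R d2 / GG (gh h) (Nat.lcm d1 d2)) =
              R d1 * R d2 * (c - N / GG (gh h) (Nat.lcm d1 d2)) := by ring
          have h12 : |R d1 * R d2 * (c - N / GG (gh h) (Nat.lcm d1 d2))| ≤ z * z * (z : ℝ) ^ 2 := by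
            rw [abs_mul, abs_mul]
            apply mul_le_mul _ (h9.trans h10) (abs_nonneg _) (by positivity)
            exact mul_le_mul (hRz d1 hd1) (hRz d2 hd2) (abs_nonneg _) (by positivity)
          have h13 := (abs_le.1 h12).2
          rw [← h11] at h13
          nlinarith
        · rw [hR0 d2 s2]
          simp
      · rw [hR0 d1 s1]
        simp
    refine (Finset.sum_le_sum h8).trans ?_
    rw [Finset.sum_add_distrib, Finset.sum_const, Nat.card_Icc, Nat.add_sub_cancel, nsmul_eq_mul,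
      ← Finset.mul_sum]
    apply add_le_add _ le_rfl
    apply le_of_eq
    ring
  refine (Finset.sum_le_sum h7).trans ?_
  rw [Finset.sum_add_distrib, Finset.sum_const, Nat.card_Icc, Nat.add_sub_cancel, nsmul_eq_mul]
  apply add_le_add _ le_rfl
  apply le_of_eq
  ring

theorem log_sq_le {N : ℕ} (hN : 1 ≤ N) : (Real.log N) ^ 2 ≤ 16 * Real.sqrt N := by
  have h1 : (1 : ℝ) ≤ N := by exact_mod_cast hN
  have h2 := Real.log_le_rpow_div (x := (N : ℝ)) (by linarith) (ε := 1 / 4) (by norm_num)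
  have h3 : 0 ≤ Real.log N := Real.log_nonneg h1
  have h4 : ((N : ℝ) ^ (1 / 4 : ℝ)) ^ 2 = Real.sqrt N := by
    rw [← Real.rpow_natCast, ← Real.rpow_mul (by linarith), Real.sqrt_eq_rpow]
    norm_num
  calc (Real.log N) ^ 2 ≤ ((N : ℝ) ^ (1 / 4 : ℝ) / (1 / 4)) ^ 2 := pow_le_pow_left₀ h3 h2 2
    _ = 16 * ((N : ℝ) ^ (1 / 4 : ℝ)) ^ 2 := by ring
    _ = 16 * Real.sqrt N := by rw [h4]

theorem sqrt_le_div {N : ℕ} (hN : 2 ≤ N) : Real.sqrt N ≤ 16 * N / (Real.log N) ^ 2 := by
  have h1 := log_sq_le (N := N) (by omega)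
  have h2 : (2 : ℝ) ≤ N := by exact_mod_cast hN
  have h3 : 0 < Real.log N := Real.log_pos (by linarith)
  rw [le_div_iff₀ (by positivity)]
  have h4 : Real.sqrt N * Real.sqrt N = N := Real.mul_self_sqrt (by linarith)
  have h5 := Real.sqrt_nonneg (N : ℝ)
  nlinarith

theorem pair_bound : ∃ C : ℝ, 0 < C ∧ ∀ h N : ℕ, 0 < h → 2 ≤ N →
    (((Icc 1 N).filter (fun p => p.Prime ∧ (p + h).Prime)).card : ℝ) ≤
      C * SS h * N / (Real.log N) ^ 2 := by
  obtain ⟨c, hc, hJ⟩ := J_low
  refine ⟨200 + 576 / c, by positivity, ?_⟩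
  intro h N hh hN
  have hN' : (2 : ℝ) ≤ N := by exact_mod_cast hN
  have hlog : 0 < Real.log N := Real.log_pos (by linarith)
  have hSS := one_le_SS h
  have hX : 0 < (N : ℝ) / (Real.log N) ^ 2 := by positivity
  have hsq := sqrt_le_div hN
  have hs1 : 1 ≤ Real.sqrt N := by
    rw [Real.one_le_sqrt]
    linarith
  have hfin : (200 + 576 / c) * SS h * N / (Real.log N) ^ 2 =
      200 * SS h * (N / (Real.log N) ^ 2) + 576 / c * SS h * (N / (Real.log N) ^ 2) := by ring
  have hsq' : Real.sqrt N ≤ 16 * (N / (Real.log N) ^ 2) := by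
    rw [← mul_div_assoc]
    exact hsq
  have hnn : 0 ≤ 576 / c * SS h * (N / (Real.log N) ^ 2) := by positivity
  have hSX : (N / (Real.log N) ^ 2 : ℝ) ≤ SS h * (N / (Real.log N) ^ 2) :=
    le_mul_of_one_le_left hX.le hSS
  rw [hfin]
  by_cases he : 2 ∣ h
  · -- even
    obtain ⟨z, hz1, hz2⟩ : ∃ z : ℕ, z ^ 12 ≤ N ∧ N < (z + 1) ^ 12 := by
      refine ⟨Nat.findGreatest (fun z => z ^ 12 ≤ N) N, ?_, ?_⟩
      · exact Nat.findGreatest_spec (P := fun z => z ^ 12 ≤ N) (m := 1) (by omega) (by simpa using (by omega : 1 ≤ N))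
      · by_contra hcon
        push Not at hcon
        have h1 : Nat.findGreatest (fun z => z ^ 12 ≤ N) N + 1 ≤ N :=
          (Nat.le_self_pow (by norm_num) _).trans hcon
        exact (Nat.findGreatest_is_greatest (Nat.lt_succ_self _) h1) hcon
    have hz0 : 1 ≤ z := by
      by_contra hcon
      have : z = 0 := by omega
      subst this
      norm_num at hz2
      omega
    by_cases hz3 : z = 1
    · subst hz3
      have h1 : (((Icc 1 N).filter (fun p => p.Prime ∧ (p + h).Prime)).card : ℝ) ≤ N := by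
        have := Finset.card_filter_le (Icc 1 N) (fun p => p.Prime ∧ (p + h).Prime)
        rw [Nat.card_Icc, Nat.add_sub_cancel] at this
        exact_mod_cast this
      have h2 : (N : ℝ) ≤ 2 ^ 12 := by
        have : N ≤ 2 ^ 12 := by omega
        exact_mod_cast this
      have h3 : Real.log N ≤ 12 * Real.log 2 := by
        have := Real.log_le_log (by linarith) h2
        rwa [Real.log_pow] at this
      have h4 : Real.log 2 < 0.7 := by
        have := Real.log_two_lt_d9
        linarith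
      have h5 : (Real.log N) ^ 2 ≤ 100 := by nlinarith
      have h6 : (N : ℝ) ≤ 100 * (N / (Real.log N) ^ 2) := by
        rw [← mul_div_assoc, le_div_iff₀ (by positivity)]
        nlinarith
      nlinarith
    · have hz4 : 2 ≤ z := by omega
      have h1 := sieve_even hh he z N hz0
      have h2 := hJ h z hh hz4
      have h3 := J_ge (gh_even he) z
      have hz' : (2 : ℝ) ≤ z := by exact_mod_cast hz4
      have hlz : 0 < Real.log z := Real.log_pos (by linarith)
      have h4 : Real.log N ≤ 24 * Real.log z := by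
        have e1 : (N : ℝ) ≤ (z : ℝ) ^ 24 := by
          have e2 : N ≤ z ^ 24 := by
            calc N ≤ (z + 1) ^ 12 := hz2.le
              _ ≤ (z ^ 2) ^ 12 := by
                  apply Nat.pow_le_pow_left
                  nlinarith
              _ = z ^ 24 := by ring
          exact_mod_cast e2
        have := Real.log_le_log (by linarith) e1
        rwa [Real.log_pow] at this
      obtain ⟨J, hJe⟩ : ∃ J : ℝ, J = ∑ l ∈ (Icc 1 z).filter Squarefree, 1 / FF (gh h) l := ⟨_, rfl⟩
      rw [← hJe] at h1 h3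
      have h5 : c * (Real.log z) ^ 2 ≤ SS h * J :=
        h2.trans (mul_le_mul_of_nonneg_left h3 (by linarith))
      have hJ0 : 0 < J := by
        have : 0 < SS h * J := lt_of_lt_of_le (by positivity) h5
        exact pos_of_mul_pos_right this (by linarith)
      have h6 : c * (Real.log N) ^ 2 ≤ 576 * (SS h * J) := by
        have e1 : (Real.log N) ^ 2 ≤ (24 * Real.log z) ^ 2 := pow_le_pow_left₀ hlog.le h4 2
        nlinarith
      have h7 : N * (1 / J) ≤ 576 / c * SS h * (N / (Real.log N) ^ 2) := by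
        have e1 : 1 / J ≤ 576 / c * SS h * (1 / (Real.log N) ^ 2) := by
          rw [div_le_iff₀ hJ0]
          have e2 : 576 / c * SS h * (1 / (Real.log N) ^ 2) * J =
              576 * (SS h * J) / (c * (Real.log N) ^ 2) := by
            field_simp
          rw [e2, le_div_iff₀ (by positivity)]
          linarith
        calc N * (1 / J) ≤ N * (576 / c * SS h * (1 / (Real.log N) ^ 2)) :=
              mul_le_mul_of_nonneg_left e1 (by linarith)
          _ = _ := by ring
      have h8 : (z : ℝ) ^ 6 ≤ Real.sqrt N := by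
        apply Real.le_sqrt_of_sq_le
        have : ((z : ℝ) ^ 6) ^ 2 = ((z ^ 12 : ℕ) : ℝ) := by
          push_cast
          ring
        rw [this]
        exact_mod_cast hz1
      have h9 : (z : ℝ) ≤ (z : ℝ) ^ 6 := by
        have : z ≤ z ^ 6 := Nat.le_self_pow (by norm_num) z
        exact_mod_cast this
      nlinarith
  · -- odd
    have h1 : ((Icc 1 N).filter (fun p => p.Prime ∧ (p + h).Prime)).card ≤ 1 := by
      rw [Finset.card_le_one]
      have h2 : ∀ p ∈ (Icc 1 N).filter (fun p => p.Prime ∧ (p + h).Prime), p = 2 := by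
        intro p hp
        rw [mem_filter] at hp
        rcases hp.2.1.eq_two_or_odd with h3 | h3
        · exact h3
        · exfalso
          have h4 : 2 ∣ p + h := by omega
          have h5 := (Nat.prime_dvd_prime_iff_eq Nat.prime_two hp.2.2).1 h4
          have h6 := hp.2.1.two_le
          omega
      intro a ha b hb
      rw [h2 a ha, h2 b hb]
    have h2 : (((Icc 1 N).filter (fun p => p.Prime ∧ (p + h).Prime)).card : ℝ) ≤ 1 := by
      exact_mod_cast h1
    nlinarith

end Pool.Agent.MP2711
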