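import Mathlib
import Pool.Agent.Lib_MP_2711ad_nt.Pairs
import Pool.Agent.Lib_MP_2711ad_nt.Avg
import Pool.Agent.Lib_MP_2711ad_nt.Bset

/-!
# P7: assembly
-/

set_option autoImplicit false

namespace Pool.Agent.MP2711

open Finset Filter
open scoped Combinatorics.Additive Pointwise

/-- pairs of elements of `P` with prescribed difference -/
theorem pairs_count (P : Finset ℕ) (M h : ℕ) (hP : P = (Icc 1 M).filter Nat.Prime) (m1 m2 : ℕ)
    (hm : m1 + h = m2) :
    (((P ×ˢ P).filter (fun x => x.1 + m1 = x.2 + m2)).card : ℝ) ≤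
      (((Icc 1 M).filter (fun p => p.Prime ∧ (p + h).Prime)).card : ℝ) := by
  have h1 : ((P ×ˢ P).filter (fun x => x.1 + m1 = x.2 + m2)).card ≤
      ((Icc 1 M).filter (fun p => p.Prime ∧ (p + h).Prime)).card := by
    apply Finset.card_le_card_of_injOn (fun x => x.2)
    · intro x hx
      rw [Finset.mem_coe, mem_filter, mem_product, hP, mem_filter, mem_filter] at hx
      rw [Finset.mem_coe, mem_filter]
      refine ⟨hx.1.2.1, hx.1.2.2, ?_⟩
      have : x.2 + h = x.1 := by omega
      rw [this]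
      exact hx.1.1.2
    · intro x hx y hy hxy
      rw [Finset.mem_coe, mem_filter] at hx hy
      simp only at hxy
      apply Prod.ext
      · omega
      · exact hxy
  exact_mod_cast h1

theorem pairs_symm (P : Finset ℕ) (m1 m2 : ℕ) :
    ((P ×ˢ P).filter (fun x => x.1 + m1 = x.2 + m2)).card =
      ((P ×ˢ P).filter (fun x => x.1 + m2 = x.2 + m1)).card := by
  apply Finset.card_bij (fun x _ => (x.2, x.1))
  · intro x hx
    rw [mem_filter, mem_product] at hx ⊢
    exact ⟨⟨hx.1.2, hx.1.1⟩, hx.2.symm⟩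
  · intro x _ y _ hxy
    simp only [Prod.mk.injEq] at hxy
    exact Prod.ext hxy.2 hxy.1
  · intro x hx
    rw [mem_filter, mem_product] at hx
    exact ⟨(x.2, x.1), by rw [mem_filter, mem_product]; exact ⟨⟨hx.1.2, hx.1.1⟩, hx.2.symm⟩, rfl⟩

theorem energy_eq (P B : Finset ℕ) : (Finset.addEnergy P B : ℕ) =
    ∑ m1 ∈ B, ∑ m2 ∈ B, ((P ×ˢ P).filter (fun x => x.1 + m1 = x.2 + m2)).card := by
  unfold Finset.addEnergy
  rw [Finset.card_filter, Finset.sum_product, Finset.sum_comm, Finset.sum_product]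
  apply Finset.sum_congr rfl
  intro m1 _
  apply Finset.sum_congr rfl
  intro m2 _
  rw [Finset.card_filter]

/-- the shifted differences -/
theorem shift_sum {M : ℕ} {K : ℝ} {B : Finset ℕ} (hB : B ⊆ Icc 1 M)
    (hK : ∀ A : Finset ℕ, A ⊆ Icc 1 M → ∑ h ∈ A, SS h ≤ K * (A.card + M / Real.log M))
    (hK0 : 0 ≤ K) (m : ℕ) (hm : m ∈ Icc 1 M) :
    ∑ m2 ∈ B.filter (fun m2 => m2 ≠ m), SS (if m < m2 then m2 - m else m - m2) ≤
      2 * K * (B.card + M / Real.log M) := by
  rw [mem_Icc] at hm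
  have h1 : ∑ m2 ∈ B.filter (fun m2 => m < m2), SS (m2 - m) ≤ K * (B.card + M / Real.log M) := by
    have e1 : ∑ m2 ∈ B.filter (fun m2 => m < m2), SS (m2 - m) =
        ∑ h ∈ (B.filter (fun m2 => m < m2)).image (fun m2 => m2 - m), SS h := by
      rw [Finset.sum_image]
      intro a ha b hb hab
      rw [Finset.mem_coe, mem_filter] at ha hb
      simp only at hab
      omega
    rw [e1]
    refine (hK _ ?_).trans ?_
    · intro x hx
      rw [mem_image] at hx
      obtain ⟨a, ha, rfl⟩ := hx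
      rw [mem_filter] at ha
      have := mem_Icc.1 (hB ha.1)
      rw [mem_Icc]
      omega
    · apply mul_le_mul_of_nonneg_left _ hK0
      have e2 : ((B.filter (fun m2 => m < m2)).image (fun m2 => m2 - m)).card ≤ B.card :=
        Finset.card_image_le.trans (Finset.card_filter_le _ _)
      have e3 : ((((B.filter (fun m2 => m < m2)).image (fun m2 => m2 - m)).card : ℕ) : ℝ) ≤ B.card := by
        exact_mod_cast e2
      linarith
  have h2 : ∑ m2 ∈ B.filter (fun m2 => m2 < m), SS (m - m2) ≤ K * (B.card + M / Real.log M) := by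
    have e1 : ∑ m2 ∈ B.filter (fun m2 => m2 < m), SS (m - m2) =
        ∑ h ∈ (B.filter (fun m2 => m2 < m)).image (fun m2 => m - m2), SS h := by
      rw [Finset.sum_image]
      intro a ha b hb hab
      rw [Finset.mem_coe, mem_filter] at ha hb
      simp only at hab
      omega
    rw [e1]
    refine (hK _ ?_).trans ?_
    · intro x hx
      rw [mem_image] at hx
      obtain ⟨a, ha, rfl⟩ := hx
      rw [mem_filter] at ha
      have := mem_Icc.1 (hB ha.1)
      rw [mem_Icc]
      omega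
    · apply mul_le_mul_of_nonneg_left _ hK0
      have e2 : ((B.filter (fun m2 => m2 < m)).image (fun m2 => m - m2)).card ≤ B.card :=
        Finset.card_image_le.trans (Finset.card_filter_le _ _)
      have e3 : ((((B.filter (fun m2 => m2 < m)).image (fun m2 => m - m2)).card : ℕ) : ℝ) ≤ B.card := by
        exact_mod_cast e2
      linarith
  have h3 : ∑ m2 ∈ B.filter (fun m2 => m2 ≠ m), SS (if m < m2 then m2 - m else m - m2) =
      ∑ m2 ∈ B.filter (fun m2 => m < m2), SS (m2 - m) +
        ∑ m2 ∈ B.filter (fun m2 => m2 < m), SS (m - m2) := by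
    rw [← Finset.sum_filter_add_sum_filter_not (B.filter (fun m2 => m2 ≠ m)) (fun m2 => m < m2)]
    congr 1
    · rw [Finset.filter_filter]
      apply Finset.sum_congr
      · ext x
        simp only [mem_filter]
        constructor
        · rintro ⟨a, b, c⟩
          exact ⟨a, c⟩
        · rintro ⟨a, c⟩
          exact ⟨a, by omega, c⟩
      · intro x hx
        rw [mem_filter] at hx
        rw [if_pos hx.2]
    · rw [Finset.filter_filter]
      apply Finset.sum_congr
      · ext x
        simp only [mem_filter]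
        constructor
        · rintro ⟨a, b, c⟩
          exact ⟨a, by omega⟩
        · rintro ⟨a, c⟩
          exact ⟨a, by omega, by omega⟩
      · intro x hx
        rw [mem_filter] at hx
        rw [if_neg (by omega)]
  rw [h3]
  linarith

/-- the energy bound -/
theorem energy_le {M : ℕ} {K C : ℝ} {P B : Finset ℕ} (hP : P = (Icc 1 M).filter Nat.Prime)
    (hB : B ⊆ Icc 1 M) (hM : 2 ≤ M)
    (hK : ∀ A : Finset ℕ, A ⊆ Icc 1 M → ∑ h ∈ A, SS h ≤ K * (A.card + M / Real.log M))
    (hK0 : 0 ≤ K) (hC0 : 0 ≤ C)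
    (hC : ∀ h : ℕ, 0 < h → (((Icc 1 M).filter (fun p => p.Prime ∧ (p + h).Prime)).card : ℝ) ≤
      C * SS h * M / (Real.log M) ^ 2) :
    ((Finset.addEnergy P B : ℕ) : ℝ) ≤ B.card * P.card +
      B.card * (C * M / (Real.log M) ^ 2 * (2 * K * (B.card + M / Real.log M))) := by
  rw [energy_eq]
  push_cast
  have hlog : 0 < Real.log M := Real.log_pos (by exact_mod_cast (by omega : 1 < M))
  have h1 : ∀ m1 ∈ B, ∑ m2 ∈ B, (((P ×ˢ P).filter (fun x => x.1 + m1 = x.2 + m2)).card : ℝ) ≤
      P.card + C * M / (Real.log M) ^ 2 * (2 * K * (B.card + M / Real.log M)) := by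
    intro m1 hm1
    rw [← Finset.sum_filter_add_sum_filter_not B (fun m2 => m2 = m1)]
    apply add_le_add
    · have e1 : B.filter (fun m2 => m2 = m1) = {m1} := by
        ext x
        simp only [mem_filter, mem_singleton]
        constructor
        · exact fun h => h.2
        · rintro rfl
          exact ⟨hm1, rfl⟩
      rw [e1, Finset.sum_singleton]
      have e2 : ((P ×ˢ P).filter (fun x => x.1 + m1 = x.2 + m1)).card ≤ P.card := by
        apply Finset.card_le_card_of_injOn (fun x => x.1)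
        · intro x hx
          rw [Finset.mem_coe, mem_filter, mem_product] at hx
          exact hx.1.1
        · intro x hx y hy hxy
          rw [Finset.mem_coe, mem_filter] at hx hy
          simp only at hxy
          apply Prod.ext
          · exact hxy
          · omega
      exact_mod_cast e2
    · have e1 : ∀ m2 ∈ B.filter (fun m2 => ¬ m2 = m1),
          (((P ×ˢ P).filter (fun x => x.1 + m1 = x.2 + m2)).card : ℝ) ≤
            C * M / (Real.log M) ^ 2 * SS (if m1 < m2 then m2 - m1 else m1 - m2) := by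
        intro m2 hm2
        rw [mem_filter] at hm2
        by_cases hlt : m1 < m2
        · rw [if_pos hlt]
          refine (pairs_count P M (m2 - m1) hP m1 m2 (by omega)).trans ((hC _ (by omega)).trans ?_)
          apply le_of_eq
          ring
        · rw [if_neg hlt, pairs_symm]
          refine (pairs_count P M (m1 - m2) hP m2 m1 (by omega)).trans ((hC _ (by omega)).trans ?_)
          apply le_of_eq
          ring
      refine (Finset.sum_le_sum e1).trans ?_
      rw [← Finset.mul_sum]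
      apply mul_le_mul_of_nonneg_left _ (by positivity)
      exact shift_sum hB hK hK0 m1 (hB hm1)
  refine (Finset.sum_le_sum h1).trans ?_
  rw [Finset.sum_const, nsmul_eq_mul]
  apply le_of_eq
  ring

/-- final inequality -/
theorem final_ineq {b p c1 c2 C2 K C x L T s : ℝ} (hL : 0 < L) (hx : 0 < x)
    (hb : c1 * x / L ≤ b) (hc1 : 0 < c1) (hc2 : 0 < c2) (hp1 : c2 * x / L ≤ p) (hp2 : p ≤ C2 * x / L)
    (hC2 : 0 < C2) (hK : 0 < K) (hC : 0 < C) (hT : 1 ≤ T) (hs : 0 ≤ s)
    (hbL : 1 ≤ b / L)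
    (hCS : p ^ 2 * b ^ 2 ≤ s * (b * p + b * (C * x / L ^ 2 * (2 * (K * T) * (b + x / L))))) :
    c2 ^ 2 / (C2 + 2 * C * K * (1 + 1 / c1)) * x / T ≤ s := by
  have hb0 : 0 < b := lt_of_lt_of_le (by positivity) hb
  have hD : 0 < C2 + 2 * C * K * (1 + 1 / c1) := by positivity
  have h1 : x / L ≤ b / c1 := by
    rw [le_div_iff₀ hc1]
    calc x / L * c1 = c1 * x / L := by ring
      _ ≤ b := hb
  have h2 : b * p + b * (C * x / L ^ 2 * (2 * (K * T) * (b + x / L))) ≤
      b ^ 2 * (x / L ^ 2) * T * (C2 + 2 * C * K * (1 + 1 / c1)) := by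
    have e1 : b * p ≤ b ^ 2 * (x / L ^ 2) * T * C2 := by
      have e2 : p ≤ b * (x / L ^ 2) * C2 := by
        calc p ≤ C2 * x / L := hp2
          _ = 1 * (C2 * x / L) := by ring
          _ ≤ (b / L) * (C2 * x / L) := mul_le_mul_of_nonneg_right hbL (by positivity)
          _ = b * (x / L ^ 2) * C2 := by ring
      have e3 : b * (x / L ^ 2) * C2 ≤ b * (x / L ^ 2) * C2 * T :=
        le_mul_of_one_le_right (by positivity) hT
      calc b * p ≤ b * (b * (x / L ^ 2) * C2 * T) := mul_le_mul_of_nonneg_left (e2.trans e3) hb0.le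
        _ = _ := by ring
    have e4 : b * (C * x / L ^ 2 * (2 * (K * T) * (b + x / L))) ≤
        b ^ 2 * (x / L ^ 2) * T * (2 * C * K * (1 + 1 / c1)) := by
      calc b * (C * x / L ^ 2 * (2 * (K * T) * (b + x / L))) ≤
          b * (C * x / L ^ 2 * (2 * (K * T) * (b + b / c1))) := by
            apply mul_le_mul_of_nonneg_left _ hb0.le
            apply mul_le_mul_of_nonneg_left _ (by positivity)
            apply mul_le_mul_of_nonneg_left _ (by positivity)
            linarith
        _ = _ := by ring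
    calc _ ≤ b ^ 2 * (x / L ^ 2) * T * C2 + b ^ 2 * (x / L ^ 2) * T * (2 * C * K * (1 + 1 / c1)) :=
          add_le_add e1 e4
      _ = _ := by ring
  have h3 : p ^ 2 * b ^ 2 ≤ s * (b ^ 2 * (x / L ^ 2) * T * (C2 + 2 * C * K * (1 + 1 / c1))) :=
    hCS.trans (mul_le_mul_of_nonneg_left h2 hs)
  have h4 : p ^ 2 ≤ s * ((x / L ^ 2) * T * (C2 + 2 * C * K * (1 + 1 / c1))) := by
    have hb2 : 0 < b ^ 2 := by positivity
    have : p ^ 2 * b ^ 2 ≤ s * ((x / L ^ 2) * T * (C2 + 2 * C * K * (1 + 1 / c1))) * b ^ 2 := by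
      calc _ ≤ _ := h3
        _ = _ := by ring
    exact le_of_mul_le_mul_right this hb2
  have h5 : (c2 * x / L) ^ 2 ≤ p ^ 2 := pow_le_pow_left₀ (by positivity) hp1 2
  have h6 := h5.trans h4
  have hT0 : 0 < T := by linarith
  have h7 : c2 ^ 2 * x ≤ s * (T * (C2 + 2 * C * K * (1 + 1 / c1))) := by
    have hxL : 0 < x / L ^ 2 := by positivity
    have : c2 ^ 2 * x * (x / L ^ 2) ≤ s * (T * (C2 + 2 * C * K * (1 + 1 / c1))) * (x / L ^ 2) := by
      calc c2 ^ 2 * x * (x / L ^ 2) = (c2 * x / L) ^ 2 := by ring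
        _ ≤ _ := h6
        _ = _ := by ring
    exact le_of_mul_le_mul_right this hxL
  have h8 : c2 ^ 2 / (C2 + 2 * C * K * (1 + 1 / c1)) * x / T =
      c2 ^ 2 * x / (T * (C2 + 2 * C * K * (1 + 1 / c1))) := by
    field_simp
  rw [h8, div_le_iff₀ (by positivity)]
  exact h7

theorem tendsto_LLL : Tendsto (fun N : ℕ => Real.log (Real.log (Real.log (N : ℝ)))) atTop atTop :=
  Real.tendsto_log_atTop.comp (Real.tendsto_log_atTop.comp
    (Real.tendsto_log_atTop.comp tendsto_natCast_atTop_atTop))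

/-- representations `n = p + m` with `p ∈ P`, `m ∈ B` -/
def rep (P B : Finset ℕ) (n : ℕ) : ℕ := ((P ×ˢ B).filter (fun x => x.1 + x.2 = n)).card

open Classical in
/-- Cauchy-Schwarz for the popular sums -/
theorem popular {M : ℕ} {P B : Finset ℕ} (hP : P ⊆ Icc 1 M) (hB : B ⊆ Icc 1 M) (τ : ℝ) (hτ0 : 0 ≤ τ)
    (hτ : 2 * (M * (2 * τ)) ≤ P.card * B.card) :
    (P.card : ℝ) ^ 2 * (B.card : ℝ) ^ 2 ≤
      4 * ((((Icc 1 (2 * M)).filter (fun n => τ ≤ rep P B n)).card : ℝ)) *
        ((Finset.addEnergy P B : ℕ) : ℝ) := by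
  set u := (Icc 1 (2 * M)).filter (fun n => τ ≤ rep P B n) with hu
  have h1 := Finset.card_sq_le_card_mul_addEnergy P B u
  have h2 : (P.card : ℝ) * B.card ≤
      (((P ×ˢ B).filter (fun x => x.1 + x.2 ∈ u)).card : ℝ) + M * (2 * τ) := by
    have e1 : (P.card * B.card : ℕ) = ((P ×ˢ B).filter (fun x => x.1 + x.2 ∈ u)).card +
        ((P ×ˢ B).filter (fun x => ¬ x.1 + x.2 ∈ u)).card := by
      rw [Finset.card_filter_add_card_filter_not, Finset.card_product]
    have e2 : ((((P ×ˢ B).filter (fun x => ¬ x.1 + x.2 ∈ u)).card : ℕ) : ℝ) ≤ M * (2 * τ) := by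
      have e3 : ((P ×ˢ B).filter (fun x => ¬ x.1 + x.2 ∈ u)).card =
          ∑ n ∈ (Icc 1 (2 * M)).filter (fun n => ¬ n ∈ u),
            (((P ×ˢ B).filter (fun x => ¬ x.1 + x.2 ∈ u)).filter (fun x => x.1 + x.2 = n)).card := by
        apply Finset.card_eq_sum_card_fiberwise
        intro x hx
        rw [Finset.mem_coe, mem_filter, mem_product] at hx
        rw [Finset.mem_coe, mem_filter, mem_Icc]
        have a1 := mem_Icc.1 (hP hx.1.1)
        have a2 := mem_Icc.1 (hB hx.1.2)
        refine ⟨⟨?_, ?_⟩, hx.2⟩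
        · show 1 ≤ x.1 + x.2
          omega
        · show x.1 + x.2 ≤ 2 * M
          omega
      rw [e3]
      push_cast
      have e4 : ∀ n ∈ (Icc 1 (2 * M)).filter (fun n => ¬ n ∈ u),
          ((((P ×ˢ B).filter (fun x => ¬ x.1 + x.2 ∈ u)).filter (fun x => x.1 + x.2 = n)).card : ℝ) ≤ τ := by
        intro n hn
        rw [mem_filter] at hn
        have e5 : (((P ×ˢ B).filter (fun x => ¬ x.1 + x.2 ∈ u)).filter (fun x => x.1 + x.2 = n)).card ≤
            rep P B n := by
          unfold rep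
          apply Finset.card_le_card
          intro x hx
          rw [mem_filter, mem_filter] at hx
          rw [mem_filter]
          exact ⟨hx.1.1, hx.2⟩
        have e6 : ¬ τ ≤ rep P B n := by
          intro hcon
          exact hn.2 (by rw [hu, mem_filter]; exact ⟨hn.1, hcon⟩)
        have e7 : ((((P ×ˢ B).filter (fun x => ¬ x.1 + x.2 ∈ u)).filter (fun x => x.1 + x.2 = n)).card : ℝ) ≤
            (rep P B n : ℝ) := by exact_mod_cast e5
        linarith
      refine (Finset.sum_le_sum e4).trans ?_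
      rw [Finset.sum_const, nsmul_eq_mul]
      have e8 : ((Icc 1 (2 * M)).filter (fun n => ¬ n ∈ u)).card ≤ 2 * M := by
        refine (Finset.card_filter_le _ _).trans ?_
        rw [Nat.card_Icc]
        omega
      have e9 : (((Icc 1 (2 * M)).filter (fun n => ¬ n ∈ u)).card : ℝ) ≤ 2 * M := by exact_mod_cast e8
      calc _ ≤ 2 * (M : ℝ) * τ := mul_le_mul_of_nonneg_right e9 hτ0
        _ = _ := by ring
    have e3 : ((P.card * B.card : ℕ) : ℝ) = (((P ×ˢ B).filter (fun x => x.1 + x.2 ∈ u)).card : ℝ) +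
        (((P ×ˢ B).filter (fun x => ¬ x.1 + x.2 ∈ u)).card : ℝ) := by exact_mod_cast e1
    push_cast at e3
    linarith
  have h3 : (P.card : ℝ) * B.card / 2 ≤ (((P ×ˢ B).filter (fun x => x.1 + x.2 ∈ u)).card : ℝ) := by
    linarith
  have h4 : (((P ×ˢ B).filter (fun x => x.1 + x.2 ∈ u)).card : ℝ) ^ 2 ≤
      (u.card : ℝ) * ((Finset.addEnergy P B : ℕ) : ℝ) := by exact_mod_cast h1
  have h5 : ((P.card : ℝ) * B.card / 2) ^ 2 ≤
      (((P ×ˢ B).filter (fun x => x.1 + x.2 ∈ u)).card : ℝ) ^ 2 :=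
    pow_le_pow_left₀ (by positivity) h3 2
  have h6 : ((P.card : ℝ) * B.card / 2) ^ 2 = (P.card : ℝ) ^ 2 * (B.card : ℝ) ^ 2 / 4 := by ring
  rw [h6] at h5
  linarith

open Classical in
/-- the popular sums -/
theorem sumset_lower : ∃ c : ℝ, 0 < c ∧ ∀ᶠ M : ℕ in atTop,
    c * M / Real.log (Real.log (Real.log M)) ≤
      ((((Icc 1 (2 * M)).filter (fun n => c * M / (Real.log M) ^ 2 ≤
        rep ((Icc 1 M).filter Nat.Prime) ((Icc 1 M).filter (fun m => (Qsf m).Prime)) n)).card : ℕ) : ℝ) := by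
  obtain ⟨c2, C2, hc2, hC2, hcheb⟩ := cheb
  obtain ⟨c1, hc1, hbset⟩ := bset
  obtain ⟨K, hK, havg⟩ := avg
  obtain ⟨C, hC, hpair⟩ := pair_bound
  obtain ⟨c0, hc0d⟩ : ∃ c0 : ℝ, c0 = c2 ^ 2 / (C2 + 2 * C * K * (1 + 1 / c1)) / 4 := ⟨_, rfl⟩
  have hc0 : 0 < c0 := by rw [hc0d]; positivity
  obtain ⟨c, hcd⟩ : ∃ c : ℝ, c = min c0 (c1 * c2 / 4) := ⟨_, rfl⟩
  have hc : 0 < c := by rw [hcd]; exact lt_min hc0 (by positivity)
  have hcc0 : c ≤ c0 := by rw [hcd]; exact min_le_left _ _
  have hcc1 : c ≤ c1 * c2 / 4 := by rw [hcd]; exact min_le_right _ _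
  refine ⟨c, hc, ?_⟩
  have hlim : Tendsto (fun M : ℕ => (M : ℝ) / (Real.log M) ^ 2) atTop atTop := by
    have h1 : Tendsto (fun x : ℝ => x / (Real.log x) ^ 2) atTop atTop := by
      have h2 := (isLittleO_log_rpow_atTop (r := 1 / 2) (by norm_num)).tendsto_div_nhds_zero
      have h3 : Tendsto (fun x : ℝ => x ^ (1 / 2 : ℝ) / Real.log x) atTop atTop := by
        have h4 : Tendsto (fun x : ℝ => Real.log x / x ^ (1 / 2 : ℝ)) atTop (nhdsWithin 0 (Set.Ioi 0)) := by
          rw [tendsto_nhdsWithin_iff]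
          refine ⟨h2, ?_⟩
          filter_upwards [eventually_gt_atTop 1] with x hx
          have := Real.log_pos hx
          have hx0 : 0 < x := by linarith
          simp only [Set.mem_Ioi]
          positivity
        have h5 := h4.inv_tendsto_nhdsGT_zero
        refine h5.congr' ?_
        filter_upwards with x
        simp
      have h6 := h3.atTop_mul_atTop₀ h3
      refine h6.congr' ?_
      filter_upwards [eventually_gt_atTop 1] with x hx
      have hx0 : 0 < x := by linarith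
      have h7 : x ^ (1 / 2 : ℝ) * x ^ (1 / 2 : ℝ) = x := by
        rw [← Real.rpow_add hx0]
        norm_num
      rw [div_mul_div_comm, h7, sq]
    exact h1.comp tendsto_natCast_atTop_atTop
  filter_upwards [hcheb, hbset, havg, eventually_ge_atTop 2, hlim.eventually_ge_atTop (1 / c1),
    tendsto_LLL.eventually_ge_atTop 1] with M h1 h2 h3 h4 h5 h6
  have hM2 : (2 : ℝ) ≤ M := by exact_mod_cast h4
  have hlog : 0 < Real.log M := Real.log_pos (by linarith)
  set P := (Icc 1 M).filter Nat.Prime with hPd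
  set B := (Icc 1 M).filter (fun m => (Qsf m).Prime) with hBd
  set T := Real.log (Real.log (Real.log M)) with hTd
  have hT0 : 0 < T := by linarith
  have hE := energy_le (M := M) (K := K * T) (C := C) (P := P) (B := B) hPd
    (Finset.filter_subset _ _) h4 (fun A hA => by
      have := h3 A hA
      linarith) (by positivity) hC.le (fun h hh => hpair h M hh h4)
  have hb : c1 * M / Real.log M ≤ (B.card : ℝ) := h2
  have hpop := popular (M := M) (P := P) (B := B) (Finset.filter_subset _ _) (Finset.filter_subset _ _)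
    (c * M / (Real.log M) ^ 2) (by positivity) (by
      have e1 : (c2 * M / Real.log M) * (c1 * M / Real.log M) ≤ (P.card : ℝ) * B.card :=
        mul_le_mul h1.1 hb (by positivity) (by positivity)
      refine le_trans ?_ e1
      calc 2 * ((M : ℝ) * (2 * (c * M / (Real.log M) ^ 2))) = 4 * c * (M ^ 2 / (Real.log M) ^ 2) := by ring
        _ ≤ c1 * c2 * (M ^ 2 / (Real.log M) ^ 2) := by
            apply mul_le_mul_of_nonneg_right _ (by positivity)
            linarith
        _ = _ := by ring)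
  set s := ((((Icc 1 (2 * M)).filter (fun n => c * M / (Real.log M) ^ 2 ≤ rep P B n)).card : ℕ) : ℝ)
    with hs
  have hs0 : 0 ≤ s := by rw [hs]; positivity
  have hfin := final_ineq (b := (B.card : ℝ)) (p := (P.card : ℝ)) (c1 := c1) (L := Real.log M)
    (s := 4 * s) (T := T) hlog (by linarith) hb hc1 hc2 h1.1 h1.2 hC2 hK hC h6 (by positivity) (by
      rw [div_le_div_iff₀ hc1 (by positivity)] at h5
      rw [le_div_iff₀ hlog]
      have e1 : Real.log M ≤ c1 * M / Real.log M := by
        rw [le_div_iff₀ hlog]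
        nlinarith
      linarith)
    (hpop.trans (mul_le_mul_of_nonneg_left hE (by positivity)))
  have hX : 0 < (M : ℝ) / T := by positivity
  calc c * M / T = c * (M / T) := by ring
    _ ≤ c0 * (M / T) := mul_le_mul_of_nonneg_right hcc0 hX.le
    _ = (c2 ^ 2 / (C2 + 2 * C * K * (1 + 1 / c1)) * M / T) / 4 := by rw [hc0d]; ring
    _ ≤ s := by linarith

theorem Qsf_le (m : ℕ) : Qsf m ≤ m := by
  unfold Qsf
  refine (Finset.card_filter_le _ _).trans ?_
  simp

theorem rep_le (M n : ℕ) :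
    rep ((Icc 1 M).filter Nat.Prime) ((Icc 1 M).filter (fun m => (Qsf m).Prime)) n ≤
      ((range n).filter (fun p => p.Prime ∧ (Qsf (n - p)).Prime)).card := by
  unfold rep
  apply Finset.card_le_card_of_injOn (fun x => x.1)
  · intro x hx
    rw [Finset.mem_coe, mem_filter, mem_product, mem_filter, mem_filter, mem_Icc, mem_Icc] at hx
    rw [Finset.mem_coe, mem_filter, mem_range]
    refine ⟨by show x.1 < n; omega, hx.1.1.2, ?_⟩
    have : n - x.1 = x.2 := by omega
    rw [this]
    exact hx.1.2.2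
  · intro x hx y hy hxy
    rw [Finset.mem_coe, mem_filter] at hx hy
    simp only at hxy
    apply Prod.ext
    · exact hxy
    · omega

theorem four_le_of_rep {M n : ℕ} (h : 0 < rep ((Icc 1 M).filter Nat.Prime)
    ((Icc 1 M).filter (fun m => (Qsf m).Prime)) n) : 4 ≤ n := by
  unfold rep at h
  rw [Finset.card_pos] at h
  obtain ⟨x, hx⟩ := h
  rw [mem_filter, mem_product, mem_filter, mem_filter] at hx
  have h1 := hx.1.1.2.two_le
  have h2 := hx.1.2.2.two_le.trans (Qsf_le x.2)
  omega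

open Classical in
theorem main : ∃ c : ℝ, 0 < c ∧ ∀ᶠ N : ℕ in atTop,
    c * N / Real.log (Real.log (Real.log N)) ≤
      (((Icc 4 N).filter (fun n => c * N / (Real.log N) ^ 2 ≤
        (((range n).filter (fun p => p.Prime ∧ (Qsf (n - p)).Prime)).card : ℝ))).card : ℝ) := by
  obtain ⟨c, hc, h⟩ := sumset_lower
  refine ⟨c / 4, by positivity, ?_⟩
  have ht : Tendsto (fun N : ℕ => N / 2) atTop atTop := Nat.tendsto_div_const_atTop (by norm_num)
  have h1 := ht.eventually h
  have h2 := ht.eventually (tendsto_LLL.eventually_gt_atTop 0)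
  filter_upwards [h1, h2, eventually_ge_atTop 40] with N h3 h4 h5
  have h6 : (N : ℝ) / 4 ≤ ((N / 2 : ℕ) : ℝ) := by
    have : N ≤ 4 * (N / 2) := by omega
    have e : (N : ℝ) ≤ 4 * ((N / 2 : ℕ) : ℝ) := by exact_mod_cast this
    linarith
  have h7 : ((N / 2 : ℕ) : ℝ) ≤ N := by exact_mod_cast Nat.div_le_self N 2
  have h20 : (20 : ℝ) ≤ ((N / 2 : ℕ) : ℝ) := by
    have : 20 ≤ N / 2 := by omega
    exact_mod_cast this
  have hl1 : 1 < Real.log ((N / 2 : ℕ) : ℝ) := by
    rw [Real.lt_log_iff_exp_lt (by linarith)]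
    have := Real.exp_one_lt_d9
    linarith
  have hl2 : Real.log ((N / 2 : ℕ) : ℝ) ≤ Real.log N := Real.log_le_log (by linarith) h7
  have hl3 : 0 < Real.log (Real.log ((N / 2 : ℕ) : ℝ)) := Real.log_pos hl1
  have hl4 : Real.log (Real.log ((N / 2 : ℕ) : ℝ)) ≤ Real.log (Real.log N) :=
    Real.log_le_log (by linarith) hl2
  have hl5 : Real.log (Real.log (Real.log ((N / 2 : ℕ) : ℝ))) ≤ Real.log (Real.log (Real.log N)) :=
    Real.log_le_log hl3 hl4
  have h10 : c / 4 * N ≤ c * ((N / 2 : ℕ) : ℝ) := by nlinarith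
  have h11 : c / 4 * N / (Real.log N) ^ 2 ≤ c * ((N / 2 : ℕ) : ℝ) / (Real.log ((N / 2 : ℕ) : ℝ)) ^ 2 := by
    calc c / 4 * N / (Real.log N) ^ 2 ≤ c / 4 * N / (Real.log ((N / 2 : ℕ) : ℝ)) ^ 2 := by
          apply div_le_div_of_nonneg_left (by positivity) (by positivity)
          exact pow_le_pow_left₀ (by linarith) hl2 2
      _ ≤ _ := div_le_div_of_nonneg_right h10 (by positivity)
  have h8 : (Icc 1 (2 * (N / 2))).filter (fun n =>
      c * ((N / 2 : ℕ) : ℝ) / (Real.log ((N / 2 : ℕ) : ℝ)) ^ 2 ≤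
        rep ((Icc 1 (N / 2)).filter Nat.Prime) ((Icc 1 (N / 2)).filter (fun m => (Qsf m).Prime)) n) ⊆
      (Icc 4 N).filter (fun n => c / 4 * N / (Real.log N) ^ 2 ≤
        (((range n).filter (fun p => p.Prime ∧ (Qsf (n - p)).Prime)).card : ℝ)) := by
    intro n hn
    rw [mem_filter, mem_Icc] at hn ⊢
    have e1 : (0 : ℝ) < rep ((Icc 1 (N / 2)).filter Nat.Prime)
        ((Icc 1 (N / 2)).filter (fun m => (Qsf m).Prime)) n :=
      lt_of_lt_of_le (by positivity) hn.2
    have e2 : 4 ≤ n := four_le_of_rep (M := N / 2) (n := n) (by exact_mod_cast e1)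
    have e3 : (rep ((Icc 1 (N / 2)).filter Nat.Prime)
        ((Icc 1 (N / 2)).filter (fun m => (Qsf m).Prime)) n : ℝ) ≤
        (((range n).filter (fun p => p.Prime ∧ (Qsf (n - p)).Prime)).card : ℝ) := by
      exact_mod_cast rep_le (N / 2) n
    exact ⟨⟨e2, by omega⟩, h11.trans (hn.2.trans e3)⟩
  have h9 := Finset.card_le_card h8
  refine le_trans ?_ (h3.trans (by exact_mod_cast h9))
  calc c / 4 * N / Real.log (Real.log (Real.log N)) ≤
      c / 4 * N / Real.log (Real.log (Real.log ((N / 2 : ℕ) : ℝ))) := by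
        apply div_le_div_of_nonneg_left (by positivity) h4 hl5
    _ ≤ _ := div_le_div_of_nonneg_right h10 h4.le

end Pool.Agent.MP2711
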